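import Pool.Agent.W784.PS.Defs
import Pool.Agent.Helper88.RB.P_exists_bdd
import Pool.Agent.Helper88.RB.P_variational
import Pool.Agent.Helper88.RB.P_scaled

set_option autoImplicit false
open MeasureTheory Set Filter Topology
open scoped ENNReal NNReal

namespace Pool.Agent.W784.PS

open Pool.Agent.Helper88.RB



theorem lower' {n : ℕ} {s : ℝ} (hs : 0 < s) (hsn : s < n) {K B : Set (E n)} (hK : IsCompact K)
    (hB : IsCompact B) (hBK : B ⊆ K)
    (hc : Convex ℝ B) (hi : (interior B).Nonempty) {μ : Measure (E n)}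
    (h1 : μ Set.univ = 1) (h2 : μ Kᶜ = 0) (h3 : En s μ = EI s K) (x : E n) (hx : x ∈ B) :
    EI s K ≤ PE s μ x := by
  by_cases hP : PE s μ x = ∞
  · rw [hP]; exact le_top
  obtain ⟨σ, g1, g2B, M, hM, hb⟩ := exists_bdd hs hsn hi
  have g2 : σ Kᶜ = 0 := measure_mono_null (compl_subset_compl.2 hBK) g2B
  obtain ⟨R0, hR0⟩ := hB.isBounded.subset_closedBall x
  have hR : (0 : ℝ) < max R0 1 := lt_of_lt_of_le one_pos (le_max_right _ _)
  have hKR : B ⊆ Metric.closedBall x (max R0 1) :=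
    hR0.trans (Metric.closedBall_subset_closedBall (le_max_left _ _))
  have g2' : σ (Metric.closedBall x (max R0 1))ᶜ = 0 :=
    measure_mono_null (compl_subset_compl.2 hKR) g2B
  obtain ⟨⟨C, hC, hCb⟩, hT, hr⟩ := scaled hs g1 hR g2' hM hb
  haveI : IsProbabilityMeasure μ := ⟨h1⟩
  haveI : IsProbabilityMeasure σ := ⟨g1⟩
  have hmap : ∀ r : ℝ, Measurable (fun z : E n => (1 - r) • x + r • z) := fun r => by
    fun_prop
  have hkm : Measurable (fun p : E n × E n => (ENNReal.ofReal (dist p.1 p.2)) ^ (-s)) := by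
    fun_prop
  have hmU : ∀ r : ℝ, (σ.map (fun z => (1 - r) • x + r • z)) Set.univ = 1 := by
    intro r
    rw [Measure.map_apply (hmap r) MeasurableSet.univ, preimage_univ, g1]
  have hmK : ∀ r : ℝ, 0 < r → r ≤ 1 → (σ.map (fun z => (1 - r) • x + r • z)) Kᶜ = 0 := by
    intro r hr0 hr1
    rw [Measure.map_apply (hmap r) hK.measurableSet.compl]
    refine measure_mono_null ?_ g2B
    intro z hz hzK
    exact hz (hBK (hc hx hzK (by linarith) hr0.le (by ring)))
  have hEnr : ∀ r : ℝ, 0 < r → En s (σ.map (fun z => (1 - r) • x + r • z)) ≠ ∞ := by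
    intro r hr0
    have hle : En s (σ.map (fun z => (1 - r) • x + r • z)) ≤ (ENNReal.ofReal r) ^ (-s) * M := by
      calc En s (σ.map (fun z => (1 - r) • x + r • z))
          = ∫⁻ w, PE s (σ.map (fun z => (1 - r) • x + r • z)) w
              ∂(σ.map (fun z => (1 - r) • x + r • z)) := rfl
        _ ≤ ∫⁻ _w, (ENNReal.ofReal r) ^ (-s) * M ∂(σ.map (fun z => (1 - r) • x + r • z)) :=
            lintegral_mono (fun w => hr r hr0 w)
        _ = (ENNReal.ofReal r) ^ (-s) * M := by rw [lintegral_const, hmU r, mul_one]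
    have h4 : (ENNReal.ofReal r) ^ (-s) ≠ ∞ := by
      rw [ENNReal.rpow_neg]
      apply ENNReal.inv_ne_top.2
      have : 0 < (ENNReal.ofReal r) ^ s :=
        ENNReal.rpow_pos (ENNReal.ofReal_pos.2 hr0) ENNReal.ofReal_ne_top
      exact this.ne'
    exact ne_top_of_le_ne_top (ENNReal.mul_ne_top h4 hM) hle
  have hEI : EI s K ≠ ∞ := by
    have hle : EI s K ≤ En s σ := by
      unfold EI
      exact iInf_le_of_le σ (iInf_le_of_le g1 (iInf_le_of_le g2 le_rfl))
    have h5 : En s σ ≤ M := by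
      calc En s σ = ∫⁻ w, PE s σ w ∂σ := rfl
        _ ≤ ∫⁻ _w, M ∂σ := lintegral_mono (fun w => hb w)
        _ = M := by rw [lintegral_const, g1, mul_one]
    exact ne_top_of_le_ne_top hM (hle.trans h5)
  have hvar : ∀ r : ℝ, 0 < r → r ≤ 1 →
      EI s K ≤ ∫⁻ w, PE s (σ.map (fun z => (1 - r) • x + r • z)) w ∂μ := by
    intro r hr0 hr1
    have h6 := variational hs h1 h2 h3 hEI (hmU r) (hmK r hr0 hr1) (hEnr r hr0)
    haveI : IsProbabilityMeasure (σ.map (fun z => (1 - r) • x + r • z)) := ⟨hmU r⟩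
    refine h6.trans (le_of_eq ?_)
    unfold PE
    rw [lintegral_lintegral_swap hkm.aemeasurable]
    refine lintegral_congr (fun w => lintegral_congr (fun z => ?_))
    rw [dist_comm]
  have hker : Measurable (fun w : E n => (ENNReal.ofReal (dist x w)) ^ (-s)) := by fun_prop
  have hfin : ∫⁻ w, C * (ENNReal.ofReal (dist x w)) ^ (-s) ∂μ ≠ ∞ := by
    rw [lintegral_const_mul _ hker]
    exact ENNReal.mul_ne_top hC hP
  have hne : ∀ᵐ w ∂μ, w ≠ x := by
    have h7 : ∀ᵐ w ∂μ, (ENNReal.ofReal (dist x w)) ^ (-s) < ∞ := ae_lt_top hker hP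
    filter_upwards [h7] with w hw hwx
    rw [hwx, dist_self, ENNReal.ofReal_zero, ENNReal.zero_rpow_of_neg (by linarith)] at hw
    exact lt_irrefl _ hw
  have hlim : Tendsto (fun r : ℝ => ∫⁻ w, PE s (σ.map (fun z => (1 - r) • x + r • z)) w ∂μ)
      (𝓝[>] 0) (𝓝 (∫⁻ w, (ENNReal.ofReal (dist x w)) ^ (-s) ∂μ)) := by
    refine tendsto_lintegral_filter_of_dominated_convergence
      (fun w => C * (ENNReal.ofReal (dist x w)) ^ (-s)) ?_ ?_ hfin ?_
    · refine Eventually.of_forall (fun r => ?_)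
      haveI : IsProbabilityMeasure (σ.map (fun z => (1 - r) • x + r • z)) := ⟨hmU r⟩
      exact hkm.lintegral_prod_right'
    · have : Ioc (0 : ℝ) 1 ∈ 𝓝[>] (0 : ℝ) := Ioc_mem_nhdsGT one_pos
      filter_upwards [this] with r hr0
      exact Eventually.of_forall (fun w => hCb r hr0.1 hr0.2 w)
    · filter_upwards [hne] with w hw
      exact hT w hw
  refine ge_of_tendsto hlim ?_
  have : Ioc (0 : ℝ) 1 ∈ 𝓝[>] (0 : ℝ) := Ioc_mem_nhdsGT one_pos
  filter_upwards [this] with r hr0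
  exact hvar r hr0.1 hr0.2

end Pool.Agent.W784.PS
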