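import Mathlib
import Pool.Agent.Helper88.RB.Defs

set_option autoImplicit false
open MeasureTheory Set Filter Topology
open scoped ENNReal NNReal

namespace Pool.Agent.W784.PS

open Pool.Agent.Helper88.RB

/-- The plane. -/
abbrev P2 := E 2

/-- Logarithmic kernel `log (R/t)` (value `∞` at `t = 0`), cut off below at `0`. -/
noncomputable def lk (R t : ℝ) : ℝ≥0∞ := if t = 0 then ⊤ else ENNReal.ofReal (Real.log (R / t))

/-- Logarithmic potential with the kernel `lk R`. -/
noncomputable def LP (R : ℝ) (μ : Measure P2) (x : P2) : ℝ≥0∞ := ∫⁻ y, lk R (dist x y) ∂μ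

/-- Logarithmic energy with the kernel `lk R`. -/
noncomputable def LE (R : ℝ) (μ : Measure P2) : ℝ≥0∞ := ∫⁻ x, ∫⁻ y, lk R (dist x y) ∂μ ∂μ

/-- Minimal logarithmic energy. -/
noncomputable def LI (R : ℝ) (K : Set P2) : ℝ≥0∞ :=
  ⨅ (μ : Measure P2) (_ : μ Set.univ = 1) (_ : μ Kᶜ = 0), LE R μ

/-- Real logarithmic potential (used off the support). -/
noncomputable def LR (μ : Measure P2) (x : P2) : ℝ :=
  ∫ w, -(1 / 2) * Real.log (‖x - w‖ ^ 2) ∂μ

/-- Unit vector of angle `θ`. -/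
noncomputable def uv (θ : ℝ) : P2 := !₂[Real.cos θ, Real.sin θ]

end Pool.Agent.W784.PS
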