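import Pool.Agent.W784.PS.Defs
import Pool.Agent.W329.PS_Energy

set_option autoImplicit false
open MeasureTheory Set Filter Topology
open scoped ENNReal NNReal

namespace Pool.Agent.W784.PS

open Pool.Agent.Helper88.RB

theorem exists_min_gen {n : ℕ} (k : E n × E n → ℝ≥0∞) (hk : Continuous k) {K : Set (E n)}
    (hK : IsCompact K) (hne : K.Nonempty) :
    ∃ μ : Measure (E n), μ univ = 1 ∧ μ Kᶜ = 0 ∧ ∀ σ : Measure (E n), σ univ = 1 → σ Kᶜ = 0 →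
      ∫⁻ x, ∫⁻ y, k (x, y) ∂μ ∂μ ≤ ∫⁻ x, ∫⁻ y, k (x, y) ∂σ ∂σ :=
  Pool.Agent.W329.PS.exists_min_gen k hk hK hne

theorem limit_energy {n : ℕ} (k : E n × E n → ℝ≥0∞) (hk : Continuous k) {K : Set (E n)}
    (hK : IsCompact K) (hne : K.Nonempty) (t : ℝ≥0∞)
    (h : ∀ j : ℕ, ∃ μ : Measure (E n), μ univ = 1 ∧
      μ (Metric.cthickening (1 / ((j : ℝ) + 1)) K)ᶜ = 0 ∧ ∫⁻ x, ∫⁻ y, k (x, y) ∂μ ∂μ ≤ t) :
    ∃ μ : Measure (E n), μ univ = 1 ∧ μ Kᶜ = 0 ∧ ∫⁻ x, ∫⁻ y, k (x, y) ∂μ ∂μ ≤ t :=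
  Pool.Agent.W329.PS.limit_energy k hk hK hne t h

end Pool.Agent.W784.PS
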