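import Pool.Agent.W784.PS.Defs
import Pool.Agent.W784.PS.Lim0
import Pool.Agent.Helper88.RB.P_exists_bdd
import Pool.Agent.Helper88.RB.P_scaled
import Pool.Agent.Helper88.RB.P_PX_lsc

set_option autoImplicit false
open MeasureTheory Set Filter Topology
open scoped ENNReal NNReal

namespace Pool.Agent.W784.PS

open Pool.Agent.Helper88.RB

theorem lk_cont {R : ℝ} (hR : 0 < R) : Continuous (lk R) := by
  rw [continuous_iff_continuousAt]
  intro t
  by_cases ht : t = 0
  · subst ht
    unfold ContinuousAt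
    have h0 : lk R 0 = ⊤ := by simp [lk]
    rw [h0]
    have h1 : Tendsto (fun t : ℝ => ENNReal.ofReal (Real.log (R / t))) (𝓝[≠] 0) (𝓝 ⊤) := by
      refine ENNReal.tendsto_ofReal_atTop.comp ?_
      have h2 : (fun t : ℝ => Real.log (R / t)) =ᶠ[𝓝[≠] 0] fun t => Real.log R - Real.log t := by
        filter_upwards [self_mem_nhdsWithin] with t ht
        exact Real.log_div hR.ne' ht
      refine Tendsto.congr' h2.symm ?_
      exact tendsto_atTop_add_const_left _ _ (tendsto_neg_atBot_atTop.comp Real.tendsto_log_nhdsNE_zero)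
    have h3 : Tendsto (lk R) (𝓝[≠] 0) (𝓝 ⊤) := by
      refine h1.congr' ?_
      filter_upwards [self_mem_nhdsWithin] with t ht
      have : t ≠ 0 := ht
      simp [lk, this]
    rw [← nhdsNE_sup_pure (0 : ℝ)]
    refine h3.sup ?_
    rw [tendsto_pure_left]
    intro s hs
    rw [h0]
    exact mem_of_mem_nhds hs
  · have h1 : ContinuousAt (fun t : ℝ => ENNReal.ofReal (Real.log (R / t))) t := by
      refine ENNReal.continuous_ofReal.continuousAt.comp ?_
      refine ContinuousAt.log (continuousAt_const.div continuousAt_id ht) ?_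
      exact div_ne_zero hR.ne' ht
    refine h1.congr ?_
    filter_upwards [isOpen_ne.mem_nhds ht] with s hs
    have : s ≠ 0 := hs
    simp [lk, this]

theorem lk_meas {R : ℝ} (hR : 0 < R) : Measurable (lk R) := (lk_cont hR).measurable

theorem lk_le {R : ℝ} (hR : 0 < R) {t : ℝ} (ht : 0 ≤ t) :
    lk R t ≤ ENNReal.ofReal R * (ENNReal.ofReal t) ^ (-(1:ℝ)) := by
  rcases ht.eq_or_lt with h | h
  · rw [← h, ENNReal.ofReal_zero, ENNReal.zero_rpow_of_neg (by norm_num), ENNReal.mul_top]
    · exact le_top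
    · exact (ENNReal.ofReal_pos.2 hR).ne'
  · rw [lk, if_neg h.ne', ENNReal.rpow_neg_one, ← ENNReal.ofReal_inv_of_pos h,
      ← ENNReal.ofReal_mul hR.le]
    apply ENNReal.ofReal_le_ofReal
    have := Real.log_le_sub_one_of_pos (div_pos hR h)
    rw [div_eq_mul_inv] at this ⊢
    linarith

theorem lk_anti {R : ℝ} (hR : 0 < R) {s t : ℝ} (hs : 0 < s) (hst : s ≤ t) : lk R t ≤ lk R s := by
  rw [lk, lk, if_neg hs.ne', if_neg (hs.trans_le hst).ne']
  apply ENNReal.ofReal_le_ofReal
  apply Real.log_le_log (div_pos hR (hs.trans_le hst))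
  exact div_le_div_of_nonneg_left hR.le hs hst

theorem lk_symm (R : ℝ) (x y : P2) : lk R (dist x y) = lk R (dist y x) := by rw [dist_comm]

theorem lk_kmeas {R : ℝ} (hR : 0 < R) : Measurable (fun p : P2 × P2 => lk R (dist p.1 p.2)) :=
  (lk_meas hR).comp (measurable_fst.dist measurable_snd)

theorem LP_le {R : ℝ} (hR : 0 < R) (μ : Measure P2) (x : P2) :
    LP R μ x ≤ ENNReal.ofReal R * PE 1 μ x := by
  unfold LP PE
  rw [← lintegral_const_mul _ (scaled_meas 1 x)]
  exact lintegral_mono fun y => lk_le hR dist_nonneg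

theorem LP_meas {R : ℝ} (hR : 0 < R) (μ : Measure P2) [IsFiniteMeasure μ] :
    Measurable (LP R μ) := by
  unfold LP
  exact Measurable.lintegral_prod_right' (lk_kmeas hR)

theorem LP_lsc {R : ℝ} (hR : 0 < R) (μ : Measure P2) : LowerSemicontinuous (LP R μ) := by
  unfold LP
  refine PX_lsc_aux μ (fun (x : P2) (w : P2) => lk R (dist x w)) ?_ ?_
  · intro w
    exact (lk_cont hR).comp (by fun_prop)
  · intro q
    exact (lk_cont hR).comp (by fun_prop)

theorem LP_symm {R : ℝ} (hR : 0 < R) (μ σ : Measure P2) [IsFiniteMeasure μ] [IsFiniteMeasure σ] :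
    ∫⁻ x, LP R σ x ∂μ = ∫⁻ x, LP R μ x ∂σ := by
  unfold LP
  rw [lintegral_lintegral_swap (lk_kmeas hR).aemeasurable]
  refine lintegral_congr fun x => lintegral_congr fun y => ?_
  rw [dist_comm]

theorem LE_comb {R : ℝ} (hR : 0 < R) (μ σ : Measure P2) [IsFiniteMeasure μ] [IsFiniteMeasure σ]
    (c d : ℝ≥0∞) :
    LE R (c • μ + d • σ) = c * (c * LE R μ + d * ∫⁻ x, LP R μ x ∂σ) +
      d * (c * ∫⁻ x, LP R μ x ∂σ + d * LE R σ) := by
  have h0 : ∀ ρ : Measure P2, LE R ρ = ∫⁻ x, LP R ρ x ∂ρ := fun ρ => rfl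
  have h1 : ∀ x, LP R (c • μ + d • σ) x = c * LP R μ x + d * LP R σ x := by
    intro x
    unfold LP
    rw [lintegral_add_measure, lintegral_smul_measure, lintegral_smul_measure]
    rfl
  have h2 : ∀ ρ : Measure P2, ∫⁻ x, (c * LP R μ x + d * LP R σ x) ∂ρ =
      c * (∫⁻ x, LP R μ x ∂ρ) + d * ∫⁻ x, LP R σ x ∂ρ := by
    intro ρ
    rw [lintegral_add_left ((LP_meas hR μ).const_mul c),
      lintegral_const_mul _ (LP_meas hR μ), lintegral_const_mul _ (LP_meas hR σ)]
  rw [h0 (c • μ + d • σ)]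
  simp_rw [h1]
  rw [lintegral_add_measure, lintegral_smul_measure, lintegral_smul_measure, h2, h2,
    LP_symm hR μ σ, ← h0, ← h0]
  rfl

theorem log_variational {R : ℝ} (hR : 0 < R) {K : Set P2} {μ σ : Measure P2}
    (h1 : μ Set.univ = 1) (h2 : μ Kᶜ = 0) (h3 : LE R μ = LI R K) (h4 : LI R K ≠ ∞)
    (g1 : σ Set.univ = 1) (g2 : σ Kᶜ = 0) (g3 : LE R σ ≠ ∞) :
    LI R K ≤ ∫⁻ x, LP R μ x ∂σ := by
  have i1 : IsFiniteMeasure μ := ⟨by rw [h1]; exact ENNReal.one_lt_top⟩
  have i2 : IsFiniteMeasure σ := ⟨by rw [g1]; exact ENNReal.one_lt_top⟩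
  by_contra hlt
  push Not at hlt
  set J : ℝ≥0∞ := ∫⁻ x, LP R μ x ∂σ with hJ
  set W : ℝ≥0∞ := LI R K with hW
  have hJtop : J ≠ ∞ := (hlt.trans_le le_top).ne
  have key : ∀ t : ℝ, 0 ≤ t → t ≤ 1 →
      W.toReal ≤ (1 - t) * ((1 - t) * W.toReal + t * J.toReal) +
        t * ((1 - t) * J.toReal + t * (LE R σ).toReal) := by
    intro t ht0 ht1
    have e1 : W ≤ LE R (ENNReal.ofReal (1 - t) • μ + ENNReal.ofReal t • σ) := by
      refine iInf_le_of_le (ENNReal.ofReal (1 - t) • μ + ENNReal.ofReal t • σ) ?_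
      refine iInf_le_of_le ?_ (iInf_le_of_le ?_ le_rfl)
      · rw [Measure.add_apply, Measure.smul_apply, Measure.smul_apply, h1, g1, smul_eq_mul,
          smul_eq_mul, mul_one, mul_one, ← ENNReal.ofReal_add (by linarith) ht0]
        simp
      · rw [Measure.add_apply, Measure.smul_apply, Measure.smul_apply, h2, g2, smul_zero,
          smul_zero, add_zero]
    rw [LE_comb hR, h3] at e1
    have e2 := ENNReal.toReal_mono (by finiteness) e1
    rw [ENNReal.toReal_add (by finiteness) (by finiteness), ENNReal.toReal_mul,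
      ENNReal.toReal_mul, ENNReal.toReal_add (by finiteness) (by finiteness),
      ENNReal.toReal_add (by finiteness) (by finiteness), ENNReal.toReal_mul,
      ENNReal.toReal_mul, ENNReal.toReal_mul, ENNReal.toReal_mul,
      ENNReal.toReal_ofReal (by linarith : (0 : ℝ) ≤ 1 - t), ENNReal.toReal_ofReal ht0] at e2
    exact e2
  have hwj : J.toReal < W.toReal := (ENNReal.toReal_lt_toReal hJtop h4).2 hlt
  set w := W.toReal
  set j := J.toReal
  set S := (LE R σ).toReal
  set D : ℝ := |w - 2 * j + S| + 1 with hD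
  have hD0 : 0 < D := by positivity
  set t : ℝ := min (1 / 2) ((w - j) / D) with ht
  have ht0 : 0 < t := lt_min (by norm_num) (div_pos (by linarith) hD0)
  have ht1 : t ≤ 1 := (min_le_left _ _).trans (by norm_num)
  have htD : t * D ≤ w - j := by
    have : t ≤ (w - j) / D := min_le_right _ _
    rwa [le_div_iff₀ hD0] at this
  have h5 := key t ht0.le ht1
  have h6 : t * (2 * (w - j)) ≤ t * (t * (w - 2 * j + S)) := by nlinarith
  have h7 : 2 * (w - j) ≤ t * (w - 2 * j + S) := le_of_mul_le_mul_left h6 ht0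
  have h8 : t * (w - 2 * j + S) ≤ t * D :=
    mul_le_mul_of_nonneg_left (by rw [hD]; linarith [le_abs_self (w - 2 * j + S)]) ht0.le
  linarith

theorem log_exists_min {R : ℝ} (hR : 0 < R) {K : Set P2} (hK : IsCompact K) (hne : K.Nonempty) :
    ∃ μ : Measure P2, μ univ = 1 ∧ μ Kᶜ = 0 ∧ LE R μ = LI R K := by
  obtain ⟨μ, h1, h2, h3⟩ := exists_min_gen (fun p : P2 × P2 => lk R (dist p.1 p.2))
    ((lk_cont hR).comp (by fun_prop)) hK hne
  refine ⟨μ, h1, h2, le_antisymm ?_ ?_⟩
  · unfold LI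
    exact le_iInf fun σ => le_iInf fun g1 => le_iInf fun g2 => h3 σ g1 g2
  · unfold LI
    exact iInf_le_of_le μ (iInf_le_of_le h1 (iInf_le_of_le h2 le_rfl))

/-- comparison used in the domination argument -/
theorem lk_dom {R : ℝ} (hR : 0 < R) {δ : ℝ} (hδ : 0 < δ) {r : ℝ} (hr : 0 < r) (x w z : P2)
    (hz : dist x z ≤ 2 * δ) :
    lk R (dist w ((1 - r) • x + r • z)) ≤ lk R (dist x w) +
      ENNReal.ofReal (2 * δ) * (ENNReal.ofReal (dist (x + r⁻¹ • (w - x)) z)) ^ (-(1:ℝ)) := by
  obtain ⟨h, hh⟩ : ∃ h, h = (1 - r) • x + r • z := ⟨_, rfl⟩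
  obtain ⟨v, hv⟩ : ∃ v, v = x + r⁻¹ • (w - x) := ⟨_, rfl⟩
  rw [← hh, ← hv]
  have e1 : dist w h = r * dist v z := by
    have : w - h = r • (v - z) := by
      rw [hv, hh, smul_sub, smul_add, smul_inv_smul₀ hr.ne']
      module
    rw [dist_eq_norm, dist_eq_norm, this, norm_smul, Real.norm_of_nonneg hr.le]
  have e2 : dist x h = r * dist x z := by
    have : x - h = r • (x - z) := by
      rw [hh]
      module
    rw [dist_eq_norm, dist_eq_norm, this, norm_smul, Real.norm_of_nonneg hr.le]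
  by_cases hwh : w = h
  · have hvz : dist v z = 0 := by
      rw [hwh, dist_self] at e1
      rcases mul_eq_zero.1 e1.symm with h0 | h0
      · exact absurd h0 hr.ne'
      · exact h0
    rw [hvz, ENNReal.ofReal_zero, ENNReal.zero_rpow_of_neg (by norm_num), ENNReal.mul_top]
    · simp
    · exact (ENNReal.ofReal_pos.2 (by positivity)).ne'
  by_cases hxw : x = w
  · rw [hxw, dist_self]
    simp [lk]
  have hwh' : 0 < dist w h := dist_pos.2 hwh
  have hxw' : 0 < dist x w := dist_pos.2 hxw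
  have hvz : 0 < dist v z := by
    rw [e1] at hwh'
    exact pos_of_mul_pos_right hwh' hr.le
  rw [lk, lk, if_neg hwh'.ne', if_neg hxw'.ne', ENNReal.rpow_neg_one,
    ← ENNReal.ofReal_inv_of_pos hvz, ← ENNReal.ofReal_mul (by positivity)]
  refine le_trans ?_ ENNReal.ofReal_add_le
  apply ENNReal.ofReal_le_ofReal
  have h1 : Real.log (R / dist w h) = Real.log (R / dist x w) + Real.log (dist x w / dist w h) := by
    rw [← Real.log_mul (by positivity) (by positivity)]
    congr 1
    field_simp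
  rw [h1]
  have h2 := Real.log_le_sub_one_of_pos (div_pos hxw' hwh')
  have h3 : dist x w / dist w h - 1 ≤ 2 * δ * (dist v z)⁻¹ := by
    rw [sub_le_iff_le_add, div_le_iff₀ hwh', add_mul, one_mul, e1]
    have h4 := dist_triangle x h w
    rw [e2, dist_comm h w, e1] at h4
    have h5 : 2 * δ * (dist v z)⁻¹ * (r * dist v z) = r * (2 * δ) := by
      field_simp
    rw [h5]
    have h6 : r * dist x z ≤ r * (2 * δ) := mul_le_mul_of_nonneg_left hz hr.le
    linarith
  linarith

theorem log_lower {R : ℝ} (hR : 0 < R) {K : Set P2} (hK : IsCompact K)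
    {δ : ℝ} (hδ : 0 < δ) {c : P2} (hBK : Metric.closedBall c δ ⊆ K) {μ : Measure P2}
    (h1 : μ Set.univ = 1) (h2 : μ Kᶜ = 0) (h3 : LE R μ = LI R K) (x : P2)
    (hx : x ∈ Metric.closedBall c δ) : LI R K ≤ LP R μ x := by
  by_cases hP : LP R μ x = ∞
  · rw [hP]; exact le_top
  have hi : (interior (Metric.closedBall c δ)).Nonempty :=
    ⟨c, Metric.ball_subset_interior_closedBall (Metric.mem_ball_self hδ)⟩
  have hc := convex_closedBall c δ
  obtain ⟨σ, g1, g2B, M, hM, hb⟩ := exists_bdd (n := 2) (s := 1) one_pos (by norm_num) hi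
  have g2 : σ Kᶜ = 0 := measure_mono_null (compl_subset_compl.2 hBK) g2B
  have hzB : ∀ z ∈ Metric.closedBall c δ, dist x z ≤ 2 * δ := by
    intro z hz
    have := dist_triangle_right x z c
    rw [Metric.mem_closedBall] at hz hx
    linarith
  have gball : σ (Metric.closedBall x (2 * δ))ᶜ = 0 := by
    refine measure_mono_null (compl_subset_compl.2 ?_) g2B
    intro z hz
    rw [Metric.mem_closedBall, dist_comm]
    exact hzB z hz
  have hae : ∀ᵐ z ∂σ, z ∈ Metric.closedBall c δ := by rw [ae_iff]; exact g2B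
  obtain ⟨-, -, hr⟩ := scaled (n := 2) (s := 1) one_pos g1 (by positivity) gball hM hb
  have i1 : IsProbabilityMeasure μ := ⟨h1⟩
  have i2 : IsProbabilityMeasure σ := ⟨g1⟩
  have hmap : ∀ r : ℝ, Measurable (fun z : P2 => (1 - r) • x + r • z) := fun r => by
    fun_prop
  have hmU : ∀ r : ℝ, (σ.map (fun z => (1 - r) • x + r • z)) Set.univ = 1 := by
    intro r
    rw [Measure.map_apply (hmap r) MeasurableSet.univ, preimage_univ, g1]
  have hmK : ∀ r : ℝ, 0 < r → r ≤ 1 → (σ.map (fun z => (1 - r) • x + r • z)) Kᶜ = 0 := by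
    intro r hr0 hr1
    rw [Measure.map_apply (hmap r) hK.measurableSet.compl]
    refine measure_mono_null ?_ g2B
    intro z hz hzK
    exact hz (hBK (hc hx hzK (by linarith) hr0.le (by ring)))
  have hEnr : ∀ r : ℝ, 0 < r → LE R (σ.map (fun z => (1 - r) • x + r • z)) ≠ ∞ := by
    intro r hr0
    have hle : LE R (σ.map (fun z => (1 - r) • x + r • z)) ≤
        ENNReal.ofReal R * ((ENNReal.ofReal r) ^ (-(1:ℝ)) * M) := by
      calc LE R (σ.map (fun z => (1 - r) • x + r • z))
          = ∫⁻ w, LP R (σ.map (fun z => (1 - r) • x + r • z)) w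
              ∂(σ.map (fun z => (1 - r) • x + r • z)) := rfl
        _ ≤ ∫⁻ _w, ENNReal.ofReal R * ((ENNReal.ofReal r) ^ (-(1:ℝ)) * M)
              ∂(σ.map (fun z => (1 - r) • x + r • z)) :=
            lintegral_mono (fun w => (LP_le hR _ w).trans (by gcongr; exact hr r hr0 w))
        _ = ENNReal.ofReal R * ((ENNReal.ofReal r) ^ (-(1:ℝ)) * M) := by
            rw [lintegral_const, hmU r, mul_one]
    have h4 : (ENNReal.ofReal r) ^ (-(1:ℝ)) ≠ ∞ := by
      rw [ENNReal.rpow_neg_one]
      exact ENNReal.inv_ne_top.2 (ENNReal.ofReal_pos.2 hr0).ne'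
    exact ne_top_of_le_ne_top (ENNReal.mul_ne_top ENNReal.ofReal_ne_top (ENNReal.mul_ne_top h4 hM)) hle
  have hLI : LI R K ≠ ∞ := by
    have hle : LI R K ≤ LE R (σ.map (fun z => (1 - (1:ℝ)) • x + (1:ℝ) • z)) := by
      unfold LI
      exact iInf_le_of_le _ (iInf_le_of_le (hmU 1) (iInf_le_of_le (hmK 1 one_pos le_rfl) le_rfl))
    exact ne_top_of_le_ne_top (hEnr 1 one_pos) hle
  have hLPmap : ∀ (r : ℝ) (w : P2), LP R (σ.map (fun z => (1 - r) • x + r • z)) w =
      ∫⁻ z, lk R (dist w ((1 - r) • x + r • z)) ∂σ := by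
    intro r w
    unfold LP
    rw [lintegral_map _ (hmap r)]
    exact (lk_meas hR).comp (by fun_prop)
  have hvar : ∀ r : ℝ, 0 < r → r ≤ 1 →
      LI R K ≤ ∫⁻ w, LP R (σ.map (fun z => (1 - r) • x + r • z)) w ∂μ := by
    intro r hr0 hr1
    have h6 := log_variational hR h1 h2 h3 hLI (hmU r) (hmK r hr0 hr1) (hEnr r hr0)
    have i3 : IsProbabilityMeasure (σ.map (fun z => (1 - r) • x + r • z)) := ⟨hmU r⟩
    refine h6.trans (le_of_eq ?_)
    exact LP_symm hR _ _
  have hker : Measurable (fun w : P2 => lk R (dist x w)) := (lk_meas hR).comp (by fun_prop)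
  have hfin : ∫⁻ w, (lk R (dist x w) + ENNReal.ofReal (2 * δ) * M) ∂μ ≠ ∞ := by
    rw [lintegral_add_left hker, lintegral_const, h1, mul_one]
    exact ENNReal.add_ne_top.2 ⟨hP, ENNReal.mul_ne_top ENNReal.ofReal_ne_top hM⟩
  have hne : ∀ᵐ w ∂μ, w ≠ x := by
    have h7 : ∀ᵐ w ∂μ, lk R (dist x w) < ∞ := ae_lt_top hker hP
    filter_upwards [h7] with w hw hwx
    rw [hwx, dist_self, lk, if_pos rfl] at hw
    exact lt_irrefl _ hw
  have hlim : Tendsto (fun r : ℝ => ∫⁻ w, LP R (σ.map (fun z => (1 - r) • x + r • z)) w ∂μ)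
      (𝓝[>] 0) (𝓝 (∫⁻ w, lk R (dist x w) ∂μ)) := by
    have hIoc : Ioc (0 : ℝ) 1 ∈ 𝓝[>] (0 : ℝ) := Ioc_mem_nhdsGT one_pos
    refine tendsto_lintegral_filter_of_dominated_convergence
      (fun w => lk R (dist x w) + ENNReal.ofReal (2 * δ) * M) ?_ ?_ hfin ?_
    · refine Eventually.of_forall (fun r => ?_)
      have i3 : IsProbabilityMeasure (σ.map (fun z => (1 - r) • x + r • z)) := ⟨hmU r⟩
      exact LP_meas hR _
    · filter_upwards [hIoc] with r hr0
      refine Eventually.of_forall (fun w => ?_)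
      rw [hLPmap]
      calc ∫⁻ z, lk R (dist w ((1 - r) • x + r • z)) ∂σ
          ≤ ∫⁻ z, (lk R (dist x w) + ENNReal.ofReal (2 * δ) *
            (ENNReal.ofReal (dist (x + r⁻¹ • (w - x)) z)) ^ (-(1:ℝ))) ∂σ := by
            refine lintegral_mono_ae ?_
            filter_upwards [hae] with z hz
            exact lk_dom hR hδ hr0.1 x w z (hzB z hz)
        _ = lk R (dist x w) + ENNReal.ofReal (2 * δ) * PE 1 σ (x + r⁻¹ • (w - x)) := by
            rw [lintegral_add_left measurable_const, lintegral_const, g1, mul_one,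
              lintegral_const_mul _ (scaled_meas 1 _)]
            rfl
        _ ≤ _ := by gcongr; exact hb _
    · filter_upwards [hne] with w hw
      have hd : 0 < dist x w := dist_pos.2 (Ne.symm hw)
      have e0 : lk R (dist x w) = ∫⁻ _z, lk R (dist x w) ∂σ := by rw [lintegral_const, g1, mul_one]
      rw [e0]
      simp_rw [hLPmap]
      refine tendsto_lintegral_filter_of_dominated_convergence (fun _ => lk R (dist x w / 2)) ?_ ?_ ?_ ?_
      · refine Eventually.of_forall (fun r => ?_)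
        exact (lk_meas hR).comp (by fun_prop)
      · have hev : ∀ᶠ r : ℝ in 𝓝[>] 0, r * (2 * δ) < dist x w / 2 := by
          have hc1 : Continuous fun r : ℝ => r * (2 * δ) := by fun_prop
          have := hc1.tendsto 0
          rw [zero_mul] at this
          exact (this.mono_left nhdsWithin_le_nhds).eventually (gt_mem_nhds (by positivity))
        filter_upwards [hev, self_mem_nhdsWithin] with r hr1 hr2
        have hr2' : (0 : ℝ) < r := hr2
        filter_upwards [hae] with z hz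
        refine lk_anti hR (by positivity) ?_
        have e3 : dist x ((1 - r) • x + r • z) = r * dist x z := by
          have : x - ((1 - r) • x + r • z) = r • (x - z) := by module
          rw [dist_eq_norm, dist_eq_norm, this, norm_smul, Real.norm_of_nonneg hr2'.le]
        have e4 := dist_triangle x ((1 - r) • x + r • z) w
        rw [e3, dist_comm ((1 - r) • x + r • z) w] at e4
        have e5 : r * dist x z ≤ r * (2 * δ) := mul_le_mul_of_nonneg_left (hzB z hz) hr2'.le
        linarith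
      · rw [lintegral_const, g1, mul_one, lk, if_neg (by positivity)]
        exact ENNReal.ofReal_ne_top
      · refine Eventually.of_forall (fun z => ?_)
        have hc1 : Continuous fun r : ℝ => lk R (dist w ((1 - r) • x + r • z)) :=
          (lk_cont hR).comp (by fun_prop)
        have := hc1.tendsto 0
        rw [sub_zero, one_smul, zero_smul, add_zero, dist_comm] at this
        exact this.mono_left nhdsWithin_le_nhds
  refine ge_of_tendsto hlim ?_
  have : Ioc (0 : ℝ) 1 ∈ 𝓝[>] (0 : ℝ) := Ioc_mem_nhdsGT one_pos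
  filter_upwards [this] with r hr0
  exact hvar r hr0.1 hr0.2

end Pool.Agent.W784.PS
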