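import Pool.Agent.W784.PS.Semi

set_option autoImplicit false
open MeasureTheory Set Filter Topology
open scoped ENNReal NNReal

namespace Pool.Agent.W784.PS

open Pool.Agent.Helper88.RB

theorem disk_g_pot (c : P2) (r : ℝ) (z : P2) :
    ∫⁻ w, ENNReal.ofReal ((Real.sqrt (r ^ 2 - ‖w - c‖ ^ 2))⁻¹) *
      (ENNReal.ofReal (dist z w)) ^ (-(1:ℝ)) ≤ ENNReal.ofReal (Real.pi ^ 2) := by
  have hpi := Real.pi_pos
  have hg : Measurable (fun w : P2 => ENNReal.ofReal ((Real.sqrt (r ^ 2 - ‖w - c‖ ^ 2))⁻¹)) :=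
    ENNReal.measurable_ofReal.comp (Measurable.inv (by fun_prop))
  have h1 := full_polar _ hg z
  have h2 : ∀ θ : ℝ, ∫⁻ t : ℝ, ENNReal.ofReal ((Real.sqrt (r ^ 2 - ‖z + t • uv θ - c‖ ^ 2))⁻¹) ≤
      ENNReal.ofReal Real.pi := by
    intro θ
    refine le_trans (le_of_eq ?_)
      (chord_inv_sqrt (r ^ 2 - ‖z - c‖ ^ 2 + (inner ℝ (z - c) (uv θ)) ^ 2))
    have h3 := lintegral_add_right_eq_self (μ := (volume : Measure ℝ)) (fun t : ℝ =>
      ENNReal.ofReal ((Real.sqrt ((r ^ 2 - ‖z - c‖ ^ 2 + (inner ℝ (z - c) (uv θ)) ^ 2) - t ^ 2))⁻¹))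
      (inner ℝ (z - c) (uv θ))
    rw [← h3]
    refine lintegral_congr fun t => ?_
    congr 3
    have h4 : z + t • uv θ - c = (z - c) + t • uv θ := by abel
    rw [h4, norm_add_sq_real, norm_smul, uv_norm, inner_smul_right, mul_one, Real.norm_eq_abs,
      sq_abs]
    ring
  have h5 : ∫⁻ θ in Ioo (-Real.pi) Real.pi, ∫⁻ t : ℝ,
      ENNReal.ofReal ((Real.sqrt (r ^ 2 - ‖z + t • uv θ - c‖ ^ 2))⁻¹) ≤
      2 * ENNReal.ofReal (Real.pi ^ 2) := by
    calc _ ≤ ∫⁻ _θ in Ioo (-Real.pi) Real.pi, ENNReal.ofReal Real.pi :=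
          lintegral_mono fun θ => h2 θ
      _ = 2 * ENNReal.ofReal (Real.pi ^ 2) := by
          rw [setLIntegral_const, Real.volume_Ioo, ← ENNReal.ofReal_mul hpi.le,
            ← ENNReal.ofReal_ofNat, ← ENNReal.ofReal_mul (by norm_num)]
          congr 1
          ring
  rw [← h1] at h5
  exact (ENNReal.mul_le_mul_iff_right (by norm_num) (by norm_num)).1 h5

theorem disk_g_mass (c : P2) (r : ℝ) (hr : 0 < r) :
    ∫⁻ w, ENNReal.ofReal ((Real.sqrt (r ^ 2 - ‖w - c‖ ^ 2))⁻¹) =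
      ENNReal.ofReal (2 * Real.pi * r) := by
  have hpi := Real.pi_pos
  have hg : Measurable (fun w : P2 => ENNReal.ofReal ((Real.sqrt (r ^ 2 - ‖w - c‖ ^ 2))⁻¹)) :=
    ENNReal.measurable_ofReal.comp (Measurable.inv (by fun_prop))
  have hG : Measurable (fun w : P2 => ENNReal.ofReal ((Real.sqrt (r ^ 2 - ‖w - c‖ ^ 2))⁻¹) *
      ENNReal.ofReal (dist c w)) := hg.mul (ENNReal.measurable_ofReal.comp (by fun_prop))
  have h1 := full_polar _ hG c
  have h2 : ∫⁻ w, ENNReal.ofReal ((Real.sqrt (r ^ 2 - ‖w - c‖ ^ 2))⁻¹) *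
      ENNReal.ofReal (dist c w) * (ENNReal.ofReal (dist c w)) ^ (-(1:ℝ)) =
      ∫⁻ w, ENNReal.ofReal ((Real.sqrt (r ^ 2 - ‖w - c‖ ^ 2))⁻¹) := by
    have hae : ∀ᵐ w : P2, w ≠ c := by rw [ae_iff]; simp
    refine lintegral_congr_ae ?_
    filter_upwards [hae] with w hw
    rw [mul_assoc, ENNReal.rpow_neg_one, ENNReal.mul_inv_cancel, mul_one]
    · exact (ENNReal.ofReal_pos.2 (dist_pos.2 (Ne.symm hw))).ne'
    · exact ENNReal.ofReal_ne_top
  have h3 : ∀ θ t : ℝ, ENNReal.ofReal ((Real.sqrt (r ^ 2 - ‖c + t • uv θ - c‖ ^ 2))⁻¹) *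
      ENNReal.ofReal (dist c (c + t • uv θ)) =
      ENNReal.ofReal (|t| * (Real.sqrt (r ^ 2 - t ^ 2))⁻¹) := by
    intro θ t
    have e1 : c + t • uv θ - c = t • uv θ := by abel
    have e2 : dist c (c + t • uv θ) = |t| := by
      rw [dist_eq_norm, ← norm_neg]
      have : -(c - (c + t • uv θ)) = t • uv θ := by abel
      rw [this, norm_smul, uv_norm, mul_one, Real.norm_eq_abs]
    rw [e1, e2, norm_smul, uv_norm, mul_one, Real.norm_eq_abs, sq_abs, mul_comm,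
      ← ENNReal.ofReal_mul (abs_nonneg _)]
  rw [h2] at h1
  simp only [h3] at h1
  rw [lintegral_congr fun θ => abs_inv_sqrt r hr, setLIntegral_const, Real.volume_Ioo,
    ← ENNReal.ofReal_mul (by positivity)] at h1
  have h4 : ENNReal.ofReal (2 * r * (Real.pi - -Real.pi)) = 2 * ENNReal.ofReal (2 * Real.pi * r) := by
    rw [← ENNReal.ofReal_ofNat, ← ENNReal.ofReal_mul (by norm_num)]
    congr 1
    ring
  rw [h4] at h1
  exact (ENNReal.mul_right_inj (by norm_num) (by norm_num)).1 h1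

theorem disk_newton (c : P2) (r : ℝ) (hr : 0 < r) : ∃ μ : Measure P2, IsProbabilityMeasure μ ∧
    μ (Metric.closedBall c r)ᶜ = 0 ∧
    ∫⁻ x, ∫⁻ y, (edist x y)⁻¹ ∂μ ∂μ ≤ ENNReal.ofReal (Real.pi / (2 * r)) := by
  have hpi := Real.pi_pos
  obtain ⟨g, hgd⟩ : ∃ g : P2 → ℝ≥0∞, g = fun w =>
    ENNReal.ofReal ((Real.sqrt (r ^ 2 - ‖w - c‖ ^ 2))⁻¹) := ⟨_, rfl⟩
  have hg : Measurable g := by
    rw [hgd]; exact ENNReal.measurable_ofReal.comp (Measurable.inv (by fun_prop))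
  obtain ⟨A, hA⟩ : ∃ A : ℝ≥0∞, A = ENNReal.ofReal (2 * Real.pi * r) := ⟨_, rfl⟩
  have hA0 : A ≠ 0 := by rw [hA]; exact (ENNReal.ofReal_pos.2 (by positivity)).ne'
  have hAt : A ≠ ⊤ := by rw [hA]; exact ENNReal.ofReal_ne_top
  have hmass : ∫⁻ w, g w = A := by rw [hgd, hA]; exact disk_g_mass c r hr
  obtain ⟨μ, hμ⟩ : ∃ μ : Measure P2, μ = A⁻¹ • (volume.withDensity g) := ⟨_, rfl⟩
  have hprob : IsProbabilityMeasure μ := ⟨by
    rw [hμ, Measure.smul_apply, withDensity_apply _ MeasurableSet.univ, setLIntegral_univ, hmass,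
      smul_eq_mul, ENNReal.inv_mul_cancel hA0 hAt]⟩
  have hint : ∀ f : P2 → ℝ≥0∞, Measurable f → ∫⁻ w, f w ∂μ = A⁻¹ * ∫⁻ w, g w * f w := by
    intro f hf
    rw [hμ, lintegral_smul_measure, smul_eq_mul, lintegral_withDensity_eq_lintegral_mul _ hg hf]
    rfl
  refine ⟨μ, hprob, ?_, ?_⟩
  · rw [hμ, Measure.smul_apply, withDensity_apply _ Metric.isClosed_closedBall.measurableSet.compl]
    have : ∫⁻ w in (Metric.closedBall c r)ᶜ, g w = 0 := by
      rw [setLIntegral_congr_fun Metric.isClosed_closedBall.measurableSet.compl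
        (g := fun _ => (0 : ℝ≥0∞)) ?_]
      · simp
      · intro w hw
        rw [Set.mem_compl_iff, Metric.mem_closedBall, dist_eq_norm, not_le] at hw
        rw [hgd]
        have h1 : r ^ 2 - ‖w - c‖ ^ 2 ≤ 0 := by
          have := pow_lt_pow_left₀ hw hr.le two_ne_zero
          linarith
        simp only
        rw [Real.sqrt_eq_zero_of_nonpos h1, inv_zero, ENNReal.ofReal_zero]
    rw [this, smul_zero]
  · have hpot : ∀ x, ∫⁻ y, (edist x y)⁻¹ ∂μ ≤ ENNReal.ofReal (Real.pi / (2 * r)) := by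
      intro x
      have h1 : ∫⁻ y, (edist x y)⁻¹ ∂μ = A⁻¹ * ∫⁻ w, g w * (ENNReal.ofReal (dist x w)) ^ (-(1:ℝ)) := by
        rw [← hint (fun w => (ENNReal.ofReal (dist x w)) ^ (-(1:ℝ)))
          ((ENNReal.measurable_ofReal.comp (by fun_prop)).pow_const _)]
        refine lintegral_congr fun y => ?_
        rw [edist_dist, ENNReal.rpow_neg_one]
      rw [h1]
      have h2 := disk_g_pot c r x
      have h3 : A⁻¹ * ENNReal.ofReal (Real.pi ^ 2) = ENNReal.ofReal (Real.pi / (2 * r)) := by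
        rw [hA, ← ENNReal.ofReal_inv_of_pos (by positivity), ← ENNReal.ofReal_mul (by positivity)]
        congr 1
        field_simp
      rw [← h3, hgd]
      gcongr
    calc ∫⁻ x, ∫⁻ y, (edist x y)⁻¹ ∂μ ∂μ ≤ ∫⁻ _x, ENNReal.ofReal (Real.pi / (2 * r)) ∂μ :=
          lintegral_mono fun x => hpot x
      _ = ENNReal.ofReal (Real.pi / (2 * r)) := by simp

end Pool.Agent.W784.PS
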