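import Pool.Agent.W784.PS.Compare
import Pool.Agent.W784.PS.DiskN
import Pool.Agent.W329.PS_DiskLog

set_option autoImplicit false
open MeasureTheory Set Filter Topology
open scoped ENNReal NNReal

namespace Pool.Agent.W784.PS

open Pool.Agent.Helper88.RB

/-- the part of the logarithmic energy coming from small distances -/
noncomputable def ngE (μ : Measure P2) : ℝ≥0∞ :=
  ∫⁻ x, ∫⁻ y, (@ite _ (x = y) (Classical.propDecidable _) (⊤ : ℝ≥0∞)
    (ENNReal.ofReal (-Real.log (dist x y)))) ∂μ ∂μ

noncomputable def psE (μ : Measure P2) : ℝ≥0∞ :=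
  ∫⁻ x, ∫⁻ y, ENNReal.ofReal (Real.log (dist x y)) ∂μ ∂μ

theorem log_split {R : ℝ} (hR : 0 < R) {K : Set P2} (hdiam : ∀ x ∈ K, ∀ y ∈ K, dist x y ≤ R)
    {μ : Measure P2} [IsProbabilityMeasure μ] (hμ : μ Kᶜ = 0) (hfin : LE R μ ≠ ⊤) :
    ngE μ ≠ ⊤ ∧ Real.exp ((psE μ).toReal - (ngE μ).toReal) = R * Real.exp (-(LE R μ).toReal) := by
  have hae : ∀ᵐ w ∂μ, w ∈ K := by rw [ae_iff]; exact hμ
  have hlogm : Measurable fun p : P2 × P2 => ENNReal.ofReal (Real.log (dist p.1 p.2)) :=
    ENNReal.measurable_ofReal.comp (Real.measurable_log.comp (measurable_fst.dist measurable_snd))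
  have hlogx : ∀ x : P2, Measurable fun y : P2 => ENNReal.ofReal (Real.log (dist x y)) := fun x =>
    ENNReal.measurable_ofReal.comp (Real.measurable_log.comp (by fun_prop))
  have hkx : ∀ x : P2, Measurable fun y : P2 => lk R (dist x y) := fun x =>
    (lk_meas hR).comp (by fun_prop)
  have hid : LE R μ + psE μ + ENNReal.ofReal (-Real.log R) = ngE μ + ENNReal.ofReal (Real.log R) := by
    have e1 : LE R μ + psE μ + ENNReal.ofReal (-Real.log R) = ∫⁻ x, ∫⁻ y, (lk R (dist x y) +
        ENNReal.ofReal (Real.log (dist x y)) + ENNReal.ofReal (-Real.log R)) ∂μ ∂μ := by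
      have f1 : ∀ x, ∫⁻ y, (lk R (dist x y) + ENNReal.ofReal (Real.log (dist x y)) +
          ENNReal.ofReal (-Real.log R)) ∂μ = LP R μ x +
          (∫⁻ y, ENNReal.ofReal (Real.log (dist x y)) ∂μ) + ENNReal.ofReal (-Real.log R) := by
        intro x
        rw [lintegral_add_right _ measurable_const, lintegral_add_left (hkx x), lintegral_const,
          measure_univ, mul_one]
        rfl
      simp_rw [f1]
      rw [lintegral_add_right _ measurable_const, lintegral_add_left (LP_meas hR μ),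
        lintegral_const, measure_univ, mul_one]
      rfl
    have e2 : ngE μ + ENNReal.ofReal (Real.log R) = ∫⁻ x, ∫⁻ y, ((@ite _ (x = y)
        (Classical.propDecidable _) (⊤ : ℝ≥0∞) (ENNReal.ofReal (-Real.log (dist x y)))) +
        ENNReal.ofReal (Real.log R)) ∂μ ∂μ := by
      have f1 : ∀ x, ∫⁻ y, ((@ite _ (x = y) (Classical.propDecidable _) (⊤ : ℝ≥0∞)
          (ENNReal.ofReal (-Real.log (dist x y)))) + ENNReal.ofReal (Real.log R)) ∂μ =
          (∫⁻ y, (@ite _ (x = y) (Classical.propDecidable _) (⊤ : ℝ≥0∞)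
          (ENNReal.ofReal (-Real.log (dist x y)))) ∂μ) + ENNReal.ofReal (Real.log R) := by
        intro x
        rw [lintegral_add_right _ measurable_const, lintegral_const, measure_univ, mul_one]
      simp_rw [f1]
      rw [lintegral_add_right _ measurable_const, lintegral_const, measure_univ, mul_one]
      rfl
    rw [e1, e2]
    refine lintegral_congr_ae ?_
    filter_upwards [hae] with x hx
    refine lintegral_congr_ae ?_
    filter_upwards [hae] with y hy
    by_cases hxy : x = y
    · rw [if_pos hxy, hxy, dist_self, lk, if_pos rfl]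
      simp
    · have hd : 0 < dist x y := dist_pos.2 hxy
      rw [if_neg hxy, lk, if_neg hd.ne', Real.log_div hR.ne' hd.ne']
      have hle : Real.log (dist x y) ≤ Real.log R := Real.log_le_log hd (hdiam x hx y hy)
      generalize Real.log (dist x y) = l at *
      generalize Real.log R = L at *
      rcases le_total 0 l with h1 | h1 <;> rcases le_total 0 L with h2 | h2
      · rw [ENNReal.ofReal_of_nonpos (show -L ≤ 0 by linarith),
          ENNReal.ofReal_of_nonpos (show -l ≤ 0 by linarith), add_zero, zero_add,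
          ← ENNReal.ofReal_add (by linarith) h1]
        congr 1
        ring
      · have : l = 0 := by linarith
        have hL : L = 0 := by linarith
        rw [this, hL]
        simp
      · rw [ENNReal.ofReal_of_nonpos h1, ENNReal.ofReal_of_nonpos (show -L ≤ 0 by linarith),
          add_zero, add_zero, ← ENNReal.ofReal_add (by linarith) h2]
        congr 1
        ring
      · rw [ENNReal.ofReal_of_nonpos h1, ENNReal.ofReal_of_nonpos h2, add_zero, add_zero,
          ← ENNReal.ofReal_add (by linarith) (by linarith)]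
        congr 1
        ring
  have hps : psE μ ≠ ⊤ := by
    have : psE μ ≤ ENNReal.ofReal (|Real.log R|) := by
      have h1 : psE μ ≤ ∫⁻ _x, ∫⁻ _y, ENNReal.ofReal (|Real.log R|) ∂μ ∂μ := by
        unfold psE
        refine lintegral_mono_ae ?_
        filter_upwards [hae] with x hx
        refine lintegral_mono_ae ?_
        filter_upwards [hae] with y hy
        by_cases hxy : x = y
        · rw [hxy, dist_self, Real.log_zero, ENNReal.ofReal_zero]
          exact zero_le
        · apply ENNReal.ofReal_le_ofReal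
          exact (Real.log_le_log (dist_pos.2 hxy) (hdiam x hx y hy)).trans (le_abs_self _)
      refine h1.trans ?_
      simp
    exact ne_top_of_le_ne_top ENNReal.ofReal_ne_top this
  have hng : ngE μ ≠ ⊤ := by
    intro h
    rw [h, top_add] at hid
    exact (ENNReal.add_ne_top.2 ⟨ENNReal.add_ne_top.2 ⟨hfin, hps⟩, ENNReal.ofReal_ne_top⟩) hid
  refine ⟨hng, ?_⟩
  have h2 := congrArg ENNReal.toReal hid
  rw [ENNReal.toReal_add (ENNReal.add_ne_top.2 ⟨hfin, hps⟩) ENNReal.ofReal_ne_top,
    ENNReal.toReal_add hfin hps, ENNReal.toReal_add hng ENNReal.ofReal_ne_top] at h2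
  have h3 : (ENNReal.ofReal (Real.log R)).toReal - (ENNReal.ofReal (-Real.log R)).toReal =
      Real.log R := by
    rcases le_total 0 (Real.log R) with h | h
    · rw [ENNReal.toReal_ofReal h, ENNReal.ofReal_of_nonpos (show -Real.log R ≤ 0 by linarith)]
      simp
    · rw [ENNReal.ofReal_of_nonpos h, ENNReal.toReal_ofReal (show 0 ≤ -Real.log R by linarith)]
      simp
  have h4 : (psE μ).toReal - (ngE μ).toReal = Real.log R + -(LE R μ).toReal := by linarith
  rw [h4, Real.exp_add, Real.exp_log hR]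

theorem limit_step {K : Set P2} (hK : IsCompact K) (hne : K.Nonempty) {R : ℝ} (hR : 0 < R)
    (hdiam : ∀ x ∈ Metric.cthickening 1 K, ∀ y ∈ Metric.cthickening 1 K, dist x y ≤ R / 2)
    (t : ℝ≥0∞) (ht : t < LI R K) :
    Real.pi / 2 * ((EI 1 K)⁻¹).toReal ≤ R * Real.exp (-t.toReal) := by
  have hpi := Real.pi_pos
  have hex : ∃ j : ℕ, t < LI R (Metric.cthickening (1 / ((j : ℝ) + 1)) K) := by
    by_contra hcon
    push Not at hcon
    obtain ⟨μ, h1, h2, h3⟩ := limit_energy (fun p : P2 × P2 => lk R (dist p.1 p.2))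
      ((lk_cont hR).comp (by fun_prop)) hK hne t (by
        intro j
        have hc : IsCompact (Metric.cthickening (1 / ((j : ℝ) + 1)) K) := hK.cthickening
        have hn : (Metric.cthickening (1 / ((j : ℝ) + 1)) K).Nonempty :=
          hne.mono (Metric.self_subset_cthickening K)
        obtain ⟨μ, h1, h2, h3⟩ := log_exists_min hR hc hn
        refine ⟨μ, h1, h2, ?_⟩
        have := hcon j
        rw [← h3] at this
        exact this)
    have h4 : LI R K ≤ LE R μ := iInf_le_of_le μ (iInf_le_of_le h1 (iInf_le_of_le h2 le_rfl))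
    exact absurd (h4.trans h3) (not_le.2 ht)
  obtain ⟨j, hj⟩ := hex
  have hδ : (0 : ℝ) < 1 / ((j : ℝ) + 1) := by positivity
  have hδ1 : 1 / ((j : ℝ) + 1) ≤ (1 : ℝ) := by
    rw [div_le_one (by positivity)]
    have : (0 : ℝ) ≤ j := Nat.cast_nonneg j
    linarith
  obtain ⟨K', hK'⟩ : ∃ K', K' = Metric.cthickening (1 / ((j : ℝ) + 1)) K := ⟨_, rfl⟩
  rw [← hK'] at hj
  have hKK : K ⊆ K' := by rw [hK']; exact Metric.self_subset_cthickening K
  have hK'1 : K' ⊆ Metric.cthickening 1 K := by
    rw [hK']; exact Metric.cthickening_mono hδ1 K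
  have hcomp : IsCompact K' := by rw [hK']; exact hK.cthickening
  have hball : ∀ x ∈ K', ∃ c, x ∈ Metric.closedBall c (1 / ((j : ℝ) + 1)) ∧
      Metric.closedBall c (1 / ((j : ℝ) + 1)) ⊆ K' := by
    intro x hx
    rw [hK', hK.cthickening_eq_biUnion_closedBall hδ.le] at hx
    obtain ⟨c, hc, hxc⟩ := Set.mem_iUnion₂.1 hx
    refine ⟨c, hxc, ?_⟩
    rw [hK']
    exact Metric.closedBall_subset_cthickening hc _
  obtain ⟨h1, h2⟩ := compare hcomp (hne.mono hKK) hδ hball hR
    (fun x hx y hy => hdiam x (hK'1 hx) y (hK'1 hy))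
  have hEI0 : EI 1 K' ≠ 0 := (EI_pos one_pos hcomp).ne'
  have h3 : ((EI 1 K)⁻¹).toReal ≤ ((EI 1 K')⁻¹).toReal := by
    apply ENNReal.toReal_mono (ENNReal.inv_ne_top.2 hEI0)
    rw [ENNReal.inv_le_inv]
    unfold EI
    refine le_iInf fun μ => le_iInf fun g1 => le_iInf fun g2 => ?_
    exact iInf_le_of_le μ (iInf_le_of_le g1 (iInf_le_of_le
      (measure_mono_null (compl_subset_compl.2 hKK) g2) le_rfl))
  have h4 : t.toReal ≤ (LI R K').toReal := ENNReal.toReal_mono h1 hj.le
  calc Real.pi / 2 * ((EI 1 K)⁻¹).toReal ≤ Real.pi / 2 * ((EI 1 K')⁻¹).toReal := by gcongr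
    _ ≤ R * Real.exp (-(LI R K').toReal) := h2
    _ ≤ R * Real.exp (-t.toReal) := by gcongr

theorem LI_ne_zero {K : Set P2} {R : ℝ} (hR : 0 < R)
    (hdiam : ∀ x ∈ K, ∀ y ∈ K, dist x y ≤ R / 2) : LI R K ≠ 0 := by
  have hpos : 0 < ENNReal.ofReal (Real.log 2) := ENNReal.ofReal_pos.2 (Real.log_pos (by norm_num))
  refine (lt_of_lt_of_le hpos ?_).ne'
  unfold LI
  refine le_iInf fun μ => le_iInf fun g1 => le_iInf fun g2 => ?_
  have hae : ∀ᵐ w ∂μ, w ∈ K := by rw [ae_iff]; exact g2
  have h1 : ENNReal.ofReal (Real.log 2) = ∫⁻ _x, ∫⁻ _y, ENNReal.ofReal (Real.log 2) ∂μ ∂μ := by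
    rw [lintegral_const, lintegral_const, g1, mul_one, mul_one]
  rw [h1]
  unfold LE
  refine lintegral_mono_ae ?_
  filter_upwards [hae] with x hx
  refine lintegral_mono_ae ?_
  filter_upwards [hae] with y hy
  unfold lk
  split_ifs with h
  · exact le_top
  · apply ENNReal.ofReal_le_ofReal
    have hd : 0 < dist x y := lt_of_le_of_ne dist_nonneg (Ne.symm h)
    apply Real.log_le_log (by norm_num)
    rw [le_div_iff₀ hd]
    have := hdiam x hx y hy
    linarith

/-- The main inequality. -/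
theorem main_ineq {K : Set P2} (hK : IsCompact K) (hne : K.Nonempty) :
    (EI 1 K)⁻¹ ≤ ENNReal.ofReal (2 / Real.pi) *
      (⨆ (μ : Measure P2) (_ : IsProbabilityMeasure μ) (_ : μ Kᶜ = 0) (_ : ngE μ ≠ ⊤),
        ENNReal.ofReal (Real.exp ((psE μ).toReal - (ngE μ).toReal))) := by
  have hpi := Real.pi_pos
  have hbd : Bornology.IsBounded (Metric.cthickening 1 K) := hK.isBounded.cthickening
  obtain ⟨D, hD⟩ := Metric.isBounded_iff.1 hbd
  obtain ⟨R, hRd⟩ : ∃ R, R = 2 * max D 1 := ⟨_, rfl⟩
  have hR : 0 < R := by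
    rw [hRd]
    have := le_max_right D 1
    linarith
  have hdiam : ∀ x ∈ Metric.cthickening 1 K, ∀ y ∈ Metric.cthickening 1 K, dist x y ≤ R / 2 := by
    intro x hx y hy
    have h1 := hD hx hy
    have h2 := le_max_left D 1
    rw [hRd]
    linarith
  have hEI0 : EI 1 K ≠ 0 := (EI_pos one_pos hK).ne'
  have hinvt : (EI 1 K)⁻¹ ≠ ⊤ := ENNReal.inv_ne_top.2 hEI0
  have hstep := limit_step hK hne hR hdiam
  by_cases hLt : LI R K = ⊤
  · have h1 : ((EI 1 K)⁻¹).toReal ≤ 0 := by
      have h2 : Tendsto (fun t : ℝ => R * Real.exp (-t)) atTop (𝓝 (R * 0)) :=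
        (Real.tendsto_exp_neg_atTop_nhds_zero).const_mul R
      rw [mul_zero] at h2
      have h3 : Real.pi / 2 * ((EI 1 K)⁻¹).toReal ≤ 0 := by
        refine ge_of_tendsto h2 ?_
        filter_upwards [eventually_ge_atTop 0] with t ht
        have := hstep (ENNReal.ofReal t) (by rw [hLt]; exact ENNReal.ofReal_lt_top)
        rwa [ENNReal.toReal_ofReal ht] at this
      nlinarith
    have h4 : (EI 1 K)⁻¹ = 0 := by
      have h5 : ((EI 1 K)⁻¹).toReal = 0 := le_antisymm h1 ENNReal.toReal_nonneg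
      rcases (ENNReal.toReal_eq_zero_iff _).1 h5 with h | h
      · exact h
      · exact absurd h hinvt
    rw [h4]
    exact zero_le
  · obtain ⟨μ, hμ1, hμ2, hμ3⟩ := log_exists_min hR hK hne
    have iμ : IsProbabilityMeasure μ := ⟨hμ1⟩
    have hfin : LE R μ ≠ ⊤ := by rw [hμ3]; exact hLt
    obtain ⟨hng, hexp⟩ := log_split hR (K := K) (by
      intro x hx y hy
      have := hdiam x (Metric.self_subset_cthickening K hx) y (Metric.self_subset_cthickening K hy)
      linarith) hμ2 hfin
    have h1 : Real.pi / 2 * ((EI 1 K)⁻¹).toReal ≤ R * Real.exp (-(LI R K).toReal) := by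
      rcases eq_or_ne (LI R K) 0 with h0 | h0
      · exact absurd h0 (LI_ne_zero hR (fun x hx y hy => hdiam x (Metric.self_subset_cthickening K hx)
          y (Metric.self_subset_cthickening K hy)))
      · have h2 : Tendsto (fun t : ℝ => R * Real.exp (-t)) (𝓝[<] (LI R K).toReal)
            (𝓝 (R * Real.exp (-(LI R K).toReal))) := by
          have hc : Continuous fun t : ℝ => R * Real.exp (-t) := by fun_prop
          exact (hc.tendsto _).mono_left nhdsWithin_le_nhds
        refine ge_of_tendsto h2 ?_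
        have hpos : 0 < (LI R K).toReal := ENNReal.toReal_pos h0 hLt
        have : Ioo 0 (LI R K).toReal ∈ 𝓝[<] (LI R K).toReal := Ioo_mem_nhdsLT hpos
        filter_upwards [this] with t ht
        have := hstep (ENNReal.ofReal t) (by
          rw [← ENNReal.ofReal_toReal hLt]
          exact (ENNReal.ofReal_lt_ofReal_iff_of_nonneg ht.1.le).2 ht.2)
        rwa [ENNReal.toReal_ofReal ht.1.le] at this
    have h2 : (EI 1 K)⁻¹ ≤ ENNReal.ofReal (2 / Real.pi) * ENNReal.ofReal (Real.exp
        ((psE μ).toReal - (ngE μ).toReal)) := by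
      rw [← ENNReal.ofReal_mul (by positivity), ← ENNReal.ofReal_toReal hinvt]
      apply ENNReal.ofReal_le_ofReal
      rw [hexp, hμ3]
      have h3 : ((EI 1 K)⁻¹).toReal = 2 / Real.pi * (Real.pi / 2 * ((EI 1 K)⁻¹).toReal) := by
        field_simp
      rw [h3]
      exact mul_le_mul_of_nonneg_left h1 (by positivity)
    refine h2.trans ?_
    gcongr
    exact le_iSup_of_le μ (le_iSup_of_le iμ (le_iSup_of_le hμ2 (le_iSup_of_le hng le_rfl)))

end Pool.Agent.W784.PS
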