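import Pool.Agent.W784.PS.Defs
import Pool.Agent.Helper88.RB.P_PX_ne_top

set_option autoImplicit false
open MeasureTheory Set Filter Topology
open scoped ENNReal NNReal

namespace Pool.Agent.W784.PS

open Pool.Agent.Helper88.RB

theorem tend_norm_div (R : ℝ) (m : ℝ) :
    Tendsto (fun x : P2 => ‖x‖ * (m / (‖x‖ + R))) (cocompact P2) (𝓝 m) := by
  have h1 : Tendsto (fun x : P2 => ‖x‖) (cocompact P2) atTop := tendsto_norm_cocompact_atTop
  have h2 : Tendsto (fun t : ℝ => t * (m / (t + R))) atTop (𝓝 m) := by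
    have h3 : Tendsto (fun t : ℝ => m / (1 + R / t)) atTop (𝓝 (m / (1 + 0))) := by
      refine tendsto_const_nhds.div (tendsto_const_nhds.add ?_) (by norm_num)
      exact tendsto_const_nhds.div_atTop tendsto_id
    rw [add_zero, div_one] at h3
    refine h3.congr' ?_
    filter_upwards [eventually_gt_atTop 0, eventually_gt_atTop (-R)] with t ht ht2
    have h4 : t + R ≠ 0 := by linarith
    have h5 : 1 + R / t ≠ 0 := by
      have : 1 + R / t = (t + R) / t := by field_simp
      rw [this]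
      positivity
    field_simp
  exact h2.comp h1

theorem newton_asymp {S : Set P2} (hS : IsCompact S) {ν : Measure P2} [IsFiniteMeasure ν]
    (hν : ν Sᶜ = 0) :
    Tendsto (fun x : P2 => ‖x‖ * (PX 1 ν x 0).toReal) (cocompact P2) (𝓝 (ν univ).toReal) := by
  obtain ⟨R, hR0, hR⟩ := hS.isBounded.subset_closedBall_lt 0 (0 : P2)
  have hae : ∀ᵐ w ∂ν, w ∈ S := by rw [ae_iff]; exact hν
  have hm : (ν univ).toReal = ∫ _w, (1 : ℝ) ∂ν := by simp [Measure.real]
  have hnorm : ∀ᶠ x : P2 in cocompact P2, R < ‖x‖ :=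
    (tendsto_norm_cocompact_atTop (E := P2)).eventually_gt_atTop R
  have hval : ∀ x : P2, R < ‖x‖ → (PX 1 ν x 0).toReal = ∫ w, ‖x - w‖⁻¹ ∂ν := by
    intro x hx
    have hxS : x ∉ S := by
      intro h
      have := hR h
      rw [mem_closedBall_zero_iff] at this
      linarith
    rw [(PX_ne_top one_pos hS hν x 0 (Or.inl hxS)).2]
    unfold UR
    refine integral_congr_ae (Eventually.of_forall fun w => ?_)
    simp only
    rw [zero_pow two_ne_zero, add_zero, ← Real.rpow_natCast, ← Real.rpow_mul (norm_nonneg _)]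
    norm_num
    rw [Real.rpow_neg_one]
  have hb : ∀ x : P2, R < ‖x‖ → ∀ w ∈ S, 0 < ‖x‖ - R ∧ ‖x‖ - R ≤ ‖x - w‖ ∧ ‖x - w‖ ≤ ‖x‖ + R := by
    intro x hx w hw
    have hwR : ‖w‖ ≤ R := by simpa using hR hw
    refine ⟨by linarith, ?_, ?_⟩
    · have := norm_sub_norm_le x w
      linarith
    · have := norm_sub_le x w
      linarith
  have hint : ∀ x : P2, R < ‖x‖ → Integrable (fun w => ‖x - w‖⁻¹) ν := by
    intro x hx
    refine Integrable.of_bound (by fun_prop) ((‖x‖ - R)⁻¹) ?_
    filter_upwards [hae] with w hw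
    obtain ⟨h1, h2, h3⟩ := hb x hx w hw
    rw [Real.norm_of_nonneg (by positivity)]
    exact inv_anti₀ h1 h2
  refine tendsto_of_tendsto_of_tendsto_of_le_of_le' (tend_norm_div R _) (tend_norm_div (-R) _) ?_ ?_
  · filter_upwards [hnorm] with x hx
    rw [hval x hx]
    refine mul_le_mul_of_nonneg_left ?_ (norm_nonneg _)
    rw [hm, div_eq_inv_mul, ← integral_const_mul]
    refine integral_mono_ae ((integrable_const _).const_mul _) (hint x hx) ?_
    filter_upwards [hae] with w hw
    obtain ⟨h1, h2, h3⟩ := hb x hx w hw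
    rw [mul_one]
    exact inv_anti₀ (by linarith) h3
  · filter_upwards [hnorm] with x hx
    rw [hval x hx]
    refine mul_le_mul_of_nonneg_left ?_ (norm_nonneg _)
    rw [hm, div_eq_inv_mul, ← integral_const_mul]
    refine integral_mono_ae (hint x hx) ((integrable_const _).const_mul _) ?_
    filter_upwards [hae] with w hw
    obtain ⟨h1, h2, h3⟩ := hb x hx w hw
    rw [mul_one, ← sub_eq_add_neg]
    exact inv_anti₀ h1 h2

theorem newton_lim {S : Set P2} (hS : IsCompact S) {ν : Measure P2} [IsFiniteMeasure ν]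
    (hν : ν Sᶜ = 0) :
    Tendsto (fun x : P2 => (PX 1 ν x 0).toReal) (cocompact P2) (𝓝 0) := by
  have h1 := newton_asymp hS hν
  have h2 : Tendsto (fun x : P2 => ‖x‖) (cocompact P2) atTop := tendsto_norm_cocompact_atTop
  have h3 := h1.div_atTop h2
  refine h3.congr' ?_
  filter_upwards [h2.eventually_gt_atTop 0] with x hx
  field_simp

theorem log_asymp {S : Set P2} (hS : IsCompact S) {μ : Measure P2} [IsProbabilityMeasure μ]
    (hμ : μ Sᶜ = 0) :
    Tendsto (fun x : P2 => LR μ x + Real.log ‖x‖) (cocompact P2) (𝓝 0) := by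
  obtain ⟨R, hR0, hR⟩ := hS.isBounded.subset_closedBall_lt 0 (0 : P2)
  have hae : ∀ᵐ w ∂μ, w ∈ S := by rw [ae_iff]; exact hμ
  have h2 : Tendsto (fun x : P2 => ‖x‖) (cocompact P2) atTop := tendsto_norm_cocompact_atTop
  have hb : ∀ x : P2, R < ‖x‖ → ∀ w ∈ S, 0 < ‖x‖ - R ∧ ‖x‖ - R ≤ ‖x - w‖ ∧ ‖x - w‖ ≤ ‖x‖ + R := by
    intro x hx w hw
    have hwR : ‖w‖ ≤ R := by simpa using hR hw
    refine ⟨by linarith, ?_, ?_⟩
    · have := norm_sub_norm_le x w
      linarith
    · have := norm_sub_le x w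
      linarith
  have hker : ∀ x w : P2, -(1 / 2) * Real.log (‖x - w‖ ^ 2) = - Real.log ‖x - w‖ := by
    intro x w
    rw [Real.log_pow]; push_cast; ring
  have hkb : ∀ x : P2, R < ‖x‖ → ∀ w ∈ S, -Real.log (‖x‖ + R) ≤ -(1 / 2) * Real.log (‖x - w‖ ^ 2) ∧
      -(1 / 2) * Real.log (‖x - w‖ ^ 2) ≤ -Real.log (‖x‖ - R) := by
    intro x hx w hw
    obtain ⟨h1, h2, h3⟩ := hb x hx w hw
    rw [hker]
    constructor
    · exact neg_le_neg (Real.log_le_log (by linarith) h3)
    · exact neg_le_neg (Real.log_le_log h1 h2)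
  have hint : ∀ x : P2, R < ‖x‖ → Integrable (fun w => -(1 / 2) * Real.log (‖x - w‖ ^ 2)) μ := by
    intro x hx
    refine Integrable.of_bound (Measurable.aestronglyMeasurable (by fun_prop))
      (max |Real.log (‖x‖ + R)| |Real.log (‖x‖ - R)|) ?_
    filter_upwards [hae] with w hw
    obtain ⟨h1, h2⟩ := hkb x hx w hw
    rw [Real.norm_eq_abs, abs_le]
    have a1 := neg_abs_le (Real.log (‖x‖ + R))
    have a2 := le_abs_self (Real.log (‖x‖ + R))
    have a3 := neg_abs_le (Real.log (‖x‖ - R))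
    have a4 := le_abs_self (Real.log (‖x‖ - R))
    have a5 := le_max_left |Real.log (‖x‖ + R)| |Real.log (‖x‖ - R)|
    have a6 := le_max_right |Real.log (‖x‖ + R)| |Real.log (‖x‖ - R)|
    constructor <;> linarith
  have hT : ∀ c : ℝ, Tendsto (fun x : P2 => -Real.log (‖x‖ + c) + Real.log ‖x‖) (cocompact P2) (𝓝 0) := by
    intro c
    have h3 : Tendsto (fun t : ℝ => -Real.log (1 + c / t)) atTop (𝓝 (-Real.log (1 + 0))) := by
      refine Tendsto.neg (Tendsto.log (tendsto_const_nhds.add ?_) (by norm_num))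
      exact tendsto_const_nhds.div_atTop tendsto_id
    rw [add_zero, Real.log_one, neg_zero] at h3
    refine (h3.comp h2).congr' ?_
    filter_upwards [h2.eventually_gt_atTop 0, h2.eventually_gt_atTop (-c)] with x hx hx2
    have h4 : 0 < ‖x‖ + c := by linarith
    have h5 : 1 + c / ‖x‖ = (‖x‖ + c) / ‖x‖ := by field_simp
    simp only [Function.comp]
    rw [h5, Real.log_div h4.ne' hx.ne']
    ring
  refine tendsto_of_tendsto_of_tendsto_of_le_of_le' (hT R) (hT (-R)) ?_ ?_
  · filter_upwards [h2.eventually_gt_atTop R] with x hx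
    refine add_le_add ?_ le_rfl
    have : -Real.log (‖x‖ + R) = ∫ _w, -Real.log (‖x‖ + R) ∂μ := by simp
    rw [this]
    refine integral_mono_ae (integrable_const _) (hint x hx) ?_
    filter_upwards [hae] with w hw
    exact (hkb x hx w hw).1
  · filter_upwards [h2.eventually_gt_atTop R] with x hx
    refine add_le_add ?_ le_rfl
    have : -Real.log (‖x‖ + -R) = ∫ _w, -Real.log (‖x‖ - R) ∂μ := by simp [sub_eq_add_neg]
    rw [this]
    refine integral_mono_ae (hint x hx) (integrable_const _) ?_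
    filter_upwards [hae] with w hw
    exact (hkb x hx w hw).2

end Pool.Agent.W784.PS
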