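import Pool.Agent.W784.PS.Defs

set_option autoImplicit false
open MeasureTheory Set Filter Topology
open scoped ENNReal NNReal

namespace Pool.Agent.W784.PS

theorem c2_facts' {f : ℝ → ℝ} (h : ContDiffAt ℝ 2 f 0) :
    (∀ᶠ ε in 𝓝 (0:ℝ), HasDerivAt f (deriv f ε) ε) ∧
      HasDerivAt (deriv f) (deriv (deriv f) 0) 0 := by
  constructor
  · have h1 : ∀ᶠ ε in 𝓝 (0:ℝ), ContDiffAt ℝ 2 f ε := h.eventually (by norm_num)
    filter_upwards [h1] with ε hε
    exact (hε.differentiableAt (by norm_num)).hasDerivAt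
  · have h2 : ContDiffAt ℝ 1 (fderiv ℝ f) 0 := h.fderiv_right (by norm_num)
    have h3 : DifferentiableAt ℝ (fderiv ℝ f) 0 := h2.differentiableAt (by norm_num)
    have h4 : DifferentiableAt ℝ (deriv f) 0 := by
      have : deriv f = fun x => fderiv ℝ f x 1 := by
        funext x; rw [fderiv_apply_one_eq_deriv]
      rw [this]
      exact h3.clm_apply (differentiableAt_const _)
    exact h4.hasDerivAt

theorem second_ge' {f F1 : ℝ → ℝ} {c : ℝ} (h1 : ∀ᶠ s in 𝓝 (0:ℝ), HasDerivAt f (F1 s) s)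
    (h2 : HasDerivAt F1 c 0) (hm : IsLocalMin f 0) : 0 ≤ c := by
  by_contra hc
  push Not at hc
  have e1 : deriv f =ᶠ[𝓝 0] F1 := h1.mono (fun s hs => hs.deriv)
  have e2 : deriv (deriv f) 0 = c := by rw [e1.deriv_eq, h2.deriv]
  have e3 : deriv f 0 = 0 := hm.deriv_eq_zero
  have e4 : IsLocalMax f 0 := isLocalMax_of_deriv_deriv_neg (by rw [e2]; exact hc) e3
    h1.self_of_nhds.continuousAt
  have e5 : f =ᶠ[𝓝 0] fun _ => f 0 := by
    filter_upwards [hm, e4] with x hx hy using le_antisymm hy hx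
  have e6 : deriv f =ᶠ[𝓝 0] fun _ => 0 := by
    have := e5.deriv
    simpa using this
  have e7 : deriv (deriv f) 0 = 0 := by rw [e6.deriv_eq]; simp
  rw [e7] at e2
  exact absurd e2 hc.ne'

theorem calc_dir {U Q D : ℝ → ℝ} (cU : ContDiffAt ℝ 2 U 0) (cQ : ContDiffAt ℝ 2 Q 0)
    (cD : ContDiffAt ℝ 2 D 0) (h0 : 0 < U 0) (h1 : U 0 < 1) {η ε C : ℝ}
    (hmin : IsLocalMin (fun t => -Real.log (Real.sin (Real.pi / 2 * U t)) + Q t + C - η * U t
      - ε * D t) 0) :
    0 ≤ (Real.pi ^ 2 / 4) * (deriv U 0) ^ 2 / Real.sin (Real.pi / 2 * U 0) ^ 2 -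
      (Real.pi / 2) * (Real.cos (Real.pi / 2 * U 0) / Real.sin (Real.pi / 2 * U 0)) *
        deriv (deriv U) 0 + deriv (deriv Q) 0 - η * deriv (deriv U) 0 -
        ε * deriv (deriv D) 0 := by
  have hpi := Real.pi_pos
  obtain ⟨a0, b0⟩ := c2_facts' cU
  obtain ⟨a1, b1⟩ := c2_facts' cQ
  obtain ⟨a2, b2⟩ := c2_facts' cD
  have hsin0 : 0 < Real.sin (Real.pi / 2 * U 0) := by
    apply Real.sin_pos_of_pos_of_lt_pi (by positivity)
    nlinarith
  have hsin : ∀ᶠ t in 𝓝 (0 : ℝ), 0 < Real.sin (Real.pi / 2 * U t) := by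
    have hc : ContinuousAt (fun t => Real.sin (Real.pi / 2 * U t)) 0 :=
      Real.continuous_sin.continuousAt.comp (continuousAt_const.mul cU.continuousAt)
    exact hc.eventually (lt_mem_nhds hsin0)
  have d1 : ∀ᶠ t in 𝓝 (0 : ℝ), HasDerivAt (fun t => -Real.log (Real.sin (Real.pi / 2 * U t)) +
      Q t + C - η * U t - ε * D t)
      (-(Real.cos (Real.pi / 2 * U t) * (Real.pi / 2 * deriv U t) / Real.sin (Real.pi / 2 * U t)) +
        deriv Q t - η * deriv U t - ε * deriv D t) t := by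
    filter_upwards [a0, a1, a2, hsin] with t h0 h1 h2 h3
    have g1 := ((Real.hasDerivAt_sin (Real.pi / 2 * U t)).comp t (h0.const_mul (Real.pi / 2)))
    have g2 := g1.log h3.ne'
    exact ((((g2.neg).add h1).add_const C).sub (h0.const_mul η)).sub (h2.const_mul ε)
  have d2 : HasDerivAt (fun t => -(Real.cos (Real.pi / 2 * U t) * (Real.pi / 2 * deriv U t) /
        Real.sin (Real.pi / 2 * U t)) + deriv Q t - η * deriv U t - ε * deriv D t)
      ((Real.pi ^ 2 / 4) * (deriv U 0) ^ 2 / Real.sin (Real.pi / 2 * U 0) ^ 2 -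
      (Real.pi / 2) * (Real.cos (Real.pi / 2 * U 0) / Real.sin (Real.pi / 2 * U 0)) *
        deriv (deriv U) 0 + deriv (deriv Q) 0 - η * deriv (deriv U) 0 -
        ε * deriv (deriv D) 0) 0 := by
    have h0 := a0.self_of_nhds
    have g1 := ((Real.hasDerivAt_sin (Real.pi / 2 * U 0)).comp (0:ℝ) (h0.const_mul (Real.pi / 2)))
    have g2 := ((Real.hasDerivAt_cos (Real.pi / 2 * U 0)).comp (0:ℝ) (h0.const_mul (Real.pi / 2)))
    have g3 := (g2.mul (b0.const_mul (Real.pi / 2))).div g1 hsin0.ne'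
    have g4 := (((g3.neg).add b1).sub (b0.const_mul η)).sub (b2.const_mul ε)
    refine HasDerivAt.congr_deriv g4 ?_
    simp only [Function.comp, Pi.mul_apply]
    have hcs := Real.sin_sq_add_cos_sq (Real.pi / 2 * U 0)
    generalize Real.sin (Real.pi / 2 * U 0) = s at *
    generalize Real.cos (Real.pi / 2 * U 0) = c at *
    have hc2 : c ^ 2 = 1 - s ^ 2 := by linarith
    field_simp
    ring_nf
    rw [hc2]
    ring
  exact second_ge' d1 d2 hmin

theorem min_plane {X : Type} [NormedAddCommGroup X] [ProperSpace X] {K : Set X} (H : X → ℝ) (A : ℝ)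
    (hKo : IsOpen Kᶜ) (hcont : ContinuousOn H Kᶜ) (hinf : Tendsto H (cocompact X) atTop)
    (hbd : ∀ x ∈ K, ∀ c < A, ∀ᶠ y in 𝓝 x, y ∉ K → c < H y)
    (hnomin : ∀ x, x ∉ K → (∀ y, y ∉ K → H x ≤ H y) → False) : ∀ x, x ∉ K → A ≤ H x := by
  intro x1 hx1
  by_contra hcon
  push Not at hcon
  obtain ⟨C, hC⟩ : ∃ C : Set X, C = {x | x ∉ K ∧ H x ≤ H x1} := ⟨_, rfl⟩
  have hclosed : IsClosed C := by
    rw [← isOpen_compl_iff, isOpen_iff_mem_nhds]
    intro x hx
    by_cases hxK : x ∈ K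
    · filter_upwards [hbd x hxK (H x1) hcon] with y hy
      rw [hC]
      rintro ⟨h1, h2⟩
      exact absurd (hy h1) (not_lt.2 h2)
    · have hlt : H x1 < H x := by
        by_contra h
        push Not at h
        exact hx (by rw [hC]; exact ⟨hxK, h⟩)
      have hca : ContinuousAt H x := hcont.continuousAt (hKo.mem_nhds hxK)
      filter_upwards [hca.eventually (lt_mem_nhds hlt)] with y hy
      rw [hC]
      rintro ⟨h1, h2⟩
      exact absurd hy (not_lt.2 h2)
  have hcomp : IsCompact C := by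
    have h1 : ∀ᶠ x in cocompact X, H x1 < H x := hinf.eventually_gt_atTop _
    obtain ⟨T, hT, hTs⟩ := Filter.mem_cocompact.1 h1
    refine hT.of_isClosed_subset hclosed ?_
    intro x hx
    by_contra hxT
    have h2 : H x1 < H x := hTs hxT
    rw [hC] at hx
    exact absurd h2 (not_lt.2 hx.2)
  have hne : C.Nonempty := ⟨x1, by rw [hC]; exact ⟨hx1, le_rfl⟩⟩
  obtain ⟨x, hxC, hmin⟩ := hcomp.exists_isMinOn hne (hcont.mono (by
    intro y hy
    rw [hC] at hy
    exact hy.1))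
  have hxC' := hxC
  rw [hC] at hxC'
  refine hnomin x hxC'.1 ?_
  intro y hy
  by_cases hyC : y ∈ C
  · exact hmin hyC
  · have : H x1 < H y := by
      by_contra h
      push Not at h
      exact hyC (by rw [hC]; exact ⟨hy, h⟩)
    linarith [hxC'.2]

end Pool.Agent.W784.PS
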