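import Pool.Agent.W784.PS.Defs
import Pool.Agent.W329.PS_Chord

set_option autoImplicit false
open MeasureTheory Set Filter Topology
open scoped ENNReal NNReal

namespace Pool.Agent.W784.PS

theorem chord_sqrt (κ : ℝ) :
    ∫⁻ t : ℝ, ENNReal.ofReal (Real.sqrt (κ - t ^ 2)) = ENNReal.ofReal (Real.pi / 2 * κ) :=
  Pool.Agent.W329.PS.chord_sqrt κ

theorem chord_inv_sqrt (κ : ℝ) :
    ∫⁻ t : ℝ, ENNReal.ofReal ((Real.sqrt (κ - t ^ 2))⁻¹) ≤ ENNReal.ofReal Real.pi :=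
  Pool.Agent.W329.PS.chord_inv_sqrt κ

theorem abs_inv_sqrt (r : ℝ) (hr : 0 < r) :
    ∫⁻ t : ℝ, ENNReal.ofReal (|t| * (Real.sqrt (r ^ 2 - t ^ 2))⁻¹) = ENNReal.ofReal (2 * r) :=
  Pool.Agent.W329.PS.abs_inv_sqrt r hr

theorem theta_int (α φ : ℝ) (h0 : 0 < α) (h1 : α < Real.pi / 2) :
    ∫ θ in (-Real.pi)..Real.pi, max (Real.sin α ^ 2 - 1 + Real.cos (θ - φ) ^ 2) 0 =
      4 * α * Real.sin α ^ 2 - 2 * α + Real.sin (2 * α) :=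
  Pool.Agent.W329.PS.theta_int α φ h0 h1

end Pool.Agent.W784.PS
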