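import Pool.Agent.W784.PS.Point
import Pool.Agent.Helper88.RB.P_UR_smooth
import Pool.Agent.Helper88.RB.P_UR_lap

set_option autoImplicit false
open MeasureTheory Set Filter Topology
open scoped ENNReal NNReal

namespace Pool.Agent.W784.PS

open Pool.Agent.Helper88.RB

theorem rp3 (t : ℝ) (ht : 0 ≤ t) : (t ^ 2 + (0:ℝ) ^ 2) ^ (-(1:ℝ) / 2 - 1) = (t⁻¹) ^ 3 := by
  rw [zero_pow two_ne_zero, add_zero, ← Real.rpow_natCast t 2, ← Real.rpow_mul ht]
  norm_num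

theorem rp1 (t : ℝ) (ht : 0 ≤ t) : (t ^ 2 + (0:ℝ) ^ 2) ^ (-(1:ℝ) / 2) = t⁻¹ := by
  rw [zero_pow two_ne_zero, add_zero, ← Real.rpow_natCast t 2, ← Real.rpow_mul ht]
  norm_num
  rw [Real.rpow_neg_one]

theorem grad_ineq {S : Set P2} (hS : IsCompact S) {ν : Measure P2} [IsFiniteMeasure ν]
    (hν : ν Sᶜ = 0) (x : P2) (hx : x ∉ S) (hle : ∀ z, PE 1 ν z ≤ 1)
    (h0 : 0 < UR 1 ν x 0) (h1 : UR 1 ν x 0 < 1) :
    Real.pi * ∑ j : Fin 2, (deriv (fun ε : ℝ =>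
        UR 1 ν (x + ε • EuclideanSpace.single j (1 : ℝ)) 0) 0) ^ 2 ≤
      Real.sin (Real.pi * UR 1 ν x 0) * GR 1 ν x 0 := by
  have hpi := Real.pi_pos
  obtain ⟨m, hm⟩ : ∃ m, m = UR 1 ν x 0 := ⟨_, rfl⟩
  have hm' : m = ∫ y, ‖y - x‖⁻¹ ∂ν := by
    rw [hm]
    unfold UR
    refine integral_congr_ae (Eventually.of_forall fun w => ?_)
    simp only
    rw [rp1 _ (norm_nonneg _), norm_sub_rev]
  have hL : GR 1 ν x 0 = ∫ y, (‖y - x‖⁻¹) ^ 3 ∂ν := by
    unfold GR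
    refine integral_congr_ae (Eventually.of_forall fun w => ?_)
    simp only
    rw [rp3 _ (norm_nonneg _), norm_sub_rev]
  have hM : ∀ j : Fin 2, deriv (fun ε : ℝ =>
        UR 1 ν (x + ε • EuclideanSpace.single j (1 : ℝ)) 0) 0 =
        ∫ y, (y - x) j * (‖y - x‖⁻¹) ^ 3 ∂ν := by
    intro j
    have h2 := (UR_smooth one_pos hS hν x 0 (Or.inl hx) (EuclideanSpace.single j (1 : ℝ)) 0).2.1
    simp only [mul_zero, add_zero] at h2
    rw [h2]
    refine integral_congr_ae (Eventually.of_forall fun w => ?_)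
    simp only
    have h3 : inner ℝ (x - w) (EuclideanSpace.single j (1 : ℝ)) = (x - w) j := by
      rw [EuclideanSpace.inner_single_right]
      simp
    rw [h3]
    have h4 := rp3 ‖x - w‖ (norm_nonneg _)
    rw [zero_pow two_ne_zero, add_zero] at h4
    have h5 : (x - w) j = -((w - x) j) := by
      rw [PiLp.sub_apply, PiLp.sub_apply, neg_sub]
    rw [zero_pow two_ne_zero, add_zero, h4, h5, norm_sub_rev]
    ring
  rw [← hm] at h0 h1 ⊢
  have hsin : 0 < Real.sin (Real.pi * m) := by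
    apply Real.sin_pos_of_pos_of_lt_pi (by positivity)
    nlinarith
  obtain ⟨s, hs⟩ : ∃ s, s = Real.sin (Real.pi * m) := ⟨_, rfl⟩
  rw [← hs] at hsin ⊢
  obtain ⟨M0, hM0⟩ : ∃ M0, M0 = ∫ y, (y - x) 0 * (‖y - x‖⁻¹) ^ 3 ∂ν := ⟨_, rfl⟩
  obtain ⟨M1, hM1⟩ : ∃ M1, M1 = ∫ y, (y - x) 1 * (‖y - x‖⁻¹) ^ 3 ∂ν := ⟨_, rfl⟩
  obtain ⟨L, hLd⟩ : ∃ L, L = ∫ y, (‖y - x‖⁻¹) ^ 3 ∂ν := ⟨_, rfl⟩
  have hkey := pointwise hS hν x hx hle m hm' h0 h1 (!₂[Real.pi / s * M0, Real.pi / s * M1] : P2)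
  rw [← hs, ← hLd, norm_sq_two] at hkey
  have hae : ∀ᵐ w ∂ν, w ∈ S := by rw [ae_iff]; exact hν
  have hres : ν.restrict S = ν := Measure.restrict_eq_self_of_ae_mem hae
  have hint : ∀ f : P2 → ℝ, ContinuousOn f S → Integrable f ν := by
    intro f hf
    have := hf.integrableOn_compact (μ := ν) hS
    rwa [IntegrableOn, hres] at this
  have cinv : ContinuousOn (fun y : P2 => ‖y - x‖⁻¹) S := by
    refine (by fun_prop : Continuous fun y : P2 => ‖y - x‖).continuousOn.inv₀ fun y hy => ?_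
    have : y - x ≠ 0 := fun h => hx (by rw [← sub_eq_zero.1 h]; exact hy)
    exact (norm_pos_iff.2 this).ne'
  have hsplit : ∫ y, inner ℝ (y - x) (!₂[Real.pi / s * M0, Real.pi / s * M1] : P2) *
      (‖y - x‖⁻¹) ^ 3 ∂ν = Real.pi / s * M0 * M0 + Real.pi / s * M1 * M1 := by
    have i1 : Integrable (fun y : P2 => Real.pi / s * M0 * ((y - x) 0 * (‖y - x‖⁻¹) ^ 3)) ν := by
      refine (hint _ ?_).const_mul _
      exact ContinuousOn.mul (by fun_prop) (cinv.pow 3)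
    have i2 : Integrable (fun y : P2 => Real.pi / s * M1 * ((y - x) 1 * (‖y - x‖⁻¹) ^ 3)) ν := by
      refine (hint _ ?_).const_mul _
      exact ContinuousOn.mul (by fun_prop) (cinv.pow 3)
    conv_rhs => rw [hM0, hM1]
    rw [← hM0, ← hM1]
    have e1 : Real.pi / s * M0 * M0 = ∫ y, Real.pi / s * M0 * ((y - x) 0 * (‖y - x‖⁻¹) ^ 3) ∂ν := by
      rw [integral_const_mul, ← hM0]
    have e2 : Real.pi / s * M1 * M1 = ∫ y, Real.pi / s * M1 * ((y - x) 1 * (‖y - x‖⁻¹) ^ 3) ∂ν := by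
      rw [integral_const_mul, ← hM1]
    rw [e1, e2, ← integral_add i1 i2]
    refine integral_congr_ae (Eventually.of_forall fun w => ?_)
    simp only
    rw [EuclideanSpace.inner_eq_star_dotProduct]
    simp [dotProduct, Fin.sum_univ_two]
    ring
  rw [hsplit] at hkey
  rw [Fin.sum_univ_two, hM, hM, hL, ← hM0, ← hM1, ← hLd]
  simp only [Matrix.cons_val_zero, Matrix.cons_val_one] at hkey
  have h6 : ((Real.pi / s * M0) ^ 2 + (Real.pi / s * M1) ^ 2) * (s / Real.pi) =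
      Real.pi / s * (M0 * M0 + M1 * M1) := by
    field_simp
  have h7 : Real.pi / s * (M0 * M0 + M1 * M1) ≤ L := by
    have : (!₂[Real.pi / s * M0, Real.pi / s * M1] : P2) 0 = Real.pi / s * M0 := rfl
    have e3 : (!₂[Real.pi / s * M0, Real.pi / s * M1] : P2) 1 = Real.pi / s * M1 := rfl
    nlinarith [hkey, h6]
  have h8 : s * (Real.pi / s * (M0 * M0 + M1 * M1)) ≤ s * L := mul_le_mul_of_nonneg_left h7 hsin.le
  have h9 : s * (Real.pi / s * (M0 * M0 + M1 * M1)) = Real.pi * (M0 ^ 2 + M1 ^ 2) := by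
    field_simp
  linarith

end Pool.Agent.W784.PS
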