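import Pool.Agent.W784.PS.Newton
import Pool.Agent.W784.PS.LogMin
import Pool.Agent.W784.PS.Grad
import Pool.Agent.W784.PS.Calc
import Pool.Agent.W741.PS_smooth

set_option autoImplicit false
open MeasureTheory Set Filter Topology
open scoped ENNReal NNReal

namespace Pool.Agent.W784.PS

open Pool.Agent.Helper88.RB Pool.Agent.W741.PS

theorem LI_ne_top {R : ℝ} (hR : 0 < R) {K : Set P2} {δ : ℝ} (hδ : 0 < δ) {c : P2}
    (hBK : Metric.closedBall c δ ⊆ K) : LI R K ≠ ∞ := by
  have hi : (interior (Metric.closedBall c δ)).Nonempty :=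
    ⟨c, Metric.ball_subset_interior_closedBall (Metric.mem_ball_self hδ)⟩
  obtain ⟨σ, g1, g2B, M, hM, hb⟩ := exists_bdd (n := 2) (s := 1) one_pos (by norm_num) hi
  have g2 : σ Kᶜ = 0 := measure_mono_null (compl_subset_compl.2 hBK) g2B
  have h1 : LI R K ≤ LE R σ := iInf_le_of_le σ (iInf_le_of_le g1 (iInf_le_of_le g2 le_rfl))
  have h2 : LE R σ ≤ ENNReal.ofReal R * M := by
    calc LE R σ = ∫⁻ w, LP R σ w ∂σ := rfl
      _ ≤ ∫⁻ _w, ENNReal.ofReal R * M ∂σ :=
          lintegral_mono (fun w => (LP_le hR _ w).trans (by gcongr; exact hb w))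
      _ = ENNReal.ofReal R * M := by rw [lintegral_const, g1, mul_one]
  exact ne_top_of_le_ne_top (ENNReal.mul_ne_top ENNReal.ofReal_ne_top hM) (h1.trans h2)

theorem LR_dirac (x0 x : P2) : LR (Measure.dirac x0) x = -Real.log ‖x - x0‖ := by
  unfold LR
  rw [integral_dirac, Real.log_pow]
  push_cast
  ring

theorem LP_eq {K : Set P2} (hK : IsCompact K) {R : ℝ} (hR : 0 < R) {μ : Measure P2}
    [IsProbabilityMeasure μ] (hμ : μ Kᶜ = 0) (y : P2) (hy : y ∉ K) (hd : ∀ w ∈ K, dist y w ≤ R) :
    0 ≤ LR μ y + Real.log R ∧ LP R μ y = ENNReal.ofReal (LR μ y + Real.log R) := by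
  have hae : ∀ᵐ w ∂μ, w ∈ K := by rw [ae_iff]; exact hμ
  have hres : μ.restrict K = μ := Measure.restrict_eq_self_of_ae_mem hae
  have hpos : ∀ w ∈ K, 0 < ‖y - w‖ := by
    intro w hw
    refine norm_pos_iff.2 fun h => hy ?_
    rw [sub_eq_zero.1 h]; exact hw
  have hcont : ContinuousOn (fun w : P2 => -(1 / 2) * Real.log (‖y - w‖ ^ 2)) K := by
    refine continuousOn_const.mul (ContinuousOn.log (by fun_prop) ?_)
    intro w hw
    have := hpos w hw
    positivity
  have hint : Integrable (fun w : P2 => -(1 / 2) * Real.log (‖y - w‖ ^ 2)) μ := by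
    have := hcont.integrableOn_compact (μ := μ) hK
    rwa [IntegrableOn, hres] at this
  have h1 : LR μ y + Real.log R = ∫ w, (-(1 / 2) * Real.log (‖y - w‖ ^ 2) + Real.log R) ∂μ := by
    rw [integral_add hint (integrable_const _)]
    simp [LR]
  have h2 : ∀ w ∈ K, -(1 / 2) * Real.log (‖y - w‖ ^ 2) + Real.log R = Real.log (R / dist y w) := by
    intro w hw
    have := hpos w hw
    rw [dist_eq_norm, Real.log_div hR.ne' this.ne', Real.log_pow]
    push_cast
    ring
  have h3 : 0 ≤ᵐ[μ] fun w => -(1 / 2) * Real.log (‖y - w‖ ^ 2) + Real.log R := by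
    filter_upwards [hae] with w hw
    rw [h2 w hw]
    have h4 := hpos w hw
    rw [← dist_eq_norm] at h4
    apply Real.log_nonneg
    rw [le_div_iff₀ h4, one_mul]
    exact hd w hw
  rw [h1]
  refine ⟨integral_nonneg_of_ae h3, ?_⟩
  have hint2 : Integrable (fun w : P2 => -(1 / 2) * Real.log (‖y - w‖ ^ 2) + Real.log R) μ :=
    hint.add (integrable_const _)
  rw [ofReal_integral_eq_lintegral_ofReal hint2 h3]
  unfold LP
  refine lintegral_congr_ae ?_
  filter_upwards [hae] with w hw
  rw [h2 w hw, lk, if_neg]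
  rw [dist_eq_norm]
  exact (hpos w hw).ne'

theorem compare {K : Set P2} (hK : IsCompact K) (hne : K.Nonempty) {δ : ℝ} (hδ : 0 < δ)
    (hball : ∀ x ∈ K, ∃ c, x ∈ Metric.closedBall c δ ∧ Metric.closedBall c δ ⊆ K)
    {R : ℝ} (hR : 0 < R) (hdiam : ∀ x ∈ K, ∀ y ∈ K, dist x y ≤ R / 2) :
    LI R K ≠ ∞ ∧ Real.pi / 2 * ((EI 1 K)⁻¹).toReal ≤ R * Real.exp (-(LI R K).toReal) := by
  have hpi := Real.pi_pos
  obtain ⟨hI0, hIt, ν, hνf, hνK, hνu, hcont, hPE, hlt⟩ := newton hK hne hδ hball
  obtain ⟨μ, hμ1, hμ2, hμ3⟩ := log_exists_min hR hK hne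
  have iμ : IsProbabilityMeasure μ := ⟨hμ1⟩
  obtain ⟨xa, hxa⟩ := hne
  obtain ⟨x0, hx0a, hx0⟩ := hball xa hxa
  have hLt : LI R K ≠ ∞ := LI_ne_top hR hδ hx0
  refine ⟨hLt, ?_⟩
  have hKo : IsOpen Kᶜ := hK.isClosed.isOpen_compl
  have hx0K : x0 ∈ K := hx0 (Metric.mem_closedBall_self hδ.le)
  have hdir : (Measure.dirac x0 : Measure P2) Kᶜ = 0 := by
    rw [Measure.dirac_apply' _ hKo.measurableSet]
    simp [hx0K]
  obtain ⟨u, hu⟩ : ∃ u : P2 → ℝ, u = fun x => (PX 1 ν x 0).toReal := ⟨_, rfl⟩
  have hucont : Continuous u := by rw [hu]; exact hcont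
  have huUR : ∀ x, x ∉ K → u x = UR 1 ν x 0 := by
    intro x hx
    rw [hu]
    exact (PX_ne_top one_pos hK hνK x 0 (Or.inl hx)).2
  have hνne : ν univ ≠ 0 := by rw [hνu]; exact ENNReal.inv_ne_zero.2 hIt
  have hν0 : ν ≠ 0 := fun h => hνne (by rw [h]; simp)
  have hupos : ∀ x, x ∉ K → 0 < u x := by
    intro x hx
    rw [huUR x hx]
    unfold UR
    have hae : ∀ᵐ w ∂ν, w ∈ K := by rw [ae_iff]; exact hνK
    have hres : ν.restrict K = ν := Measure.restrict_eq_self_of_ae_mem hae
    have hpos : ∀ w ∈ K, 0 < ‖x - w‖ ^ 2 + (0:ℝ) ^ 2 := by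
      intro w hw
      have : 0 < ‖x - w‖ := norm_pos_iff.2 fun h => hx (by rw [sub_eq_zero.1 h]; exact hw)
      positivity
    have hint : Integrable (fun w : P2 => (‖x - w‖ ^ 2 + (0:ℝ) ^ 2) ^ (-(1:ℝ) / 2)) ν := by
      have hc : ContinuousOn (fun w : P2 => (‖x - w‖ ^ 2 + (0:ℝ) ^ 2) ^ (-(1:ℝ) / 2)) K := by
        refine ContinuousOn.rpow_const (by fun_prop) ?_
        intro w hw
        exact Or.inl (hpos w hw).ne'
      have := hc.integrableOn_compact (μ := ν) hK
      rwa [IntegrableOn, hres] at this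
    rw [integral_pos_iff_support_of_nonneg_ae ?_ hint]
    · refine pos_iff_ne_zero.2 fun h => ?_
      apply hν0
      have h2 : ν (Function.support fun w : P2 => (‖x - w‖ ^ 2 + (0:ℝ) ^ 2) ^ (-(1:ℝ) / 2))ᶜ = 0 := by
        refine measure_mono_null ?_ hνK
        intro w hw hwK
        apply hw
        rw [Function.mem_support]
        exact (Real.rpow_pos_of_pos (hpos w hwK) _).ne'
      rw [← Measure.measure_univ_eq_zero]
      refine le_antisymm ?_ zero_le
      calc ν univ ≤ ν (Function.support fun w : P2 => (‖x - w‖ ^ 2 + (0:ℝ) ^ 2) ^ (-(1:ℝ) / 2)) +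
            ν (Function.support fun w : P2 => (‖x - w‖ ^ 2 + (0:ℝ) ^ 2) ^ (-(1:ℝ) / 2))ᶜ := by
            rw [← Set.union_compl_self (Function.support fun w : P2 =>
              (‖x - w‖ ^ 2 + (0:ℝ) ^ 2) ^ (-(1:ℝ) / 2))]
            exact measure_union_le _ _
        _ = 0 := by rw [h, h2, add_zero]
    · filter_upwards with w
      exact Real.rpow_nonneg (by positivity) _
  have hult : ∀ x, x ∉ K → u x < 1 := by
    intro x hx
    rw [hu]
    exact hlt x hx
  have hule : ∀ x, u x ≤ 1 := by
    intro x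
    rw [hu]
    show (PX 1 ν x 0).toReal ≤ 1
    rw [aux_PX_zero]
    exact ENNReal.toReal_le_of_le_ofReal zero_le_one (by rw [ENNReal.ofReal_one]; exact hPE x)
  have hsinpos : ∀ x, x ∉ K → 0 < Real.sin (Real.pi / 2 * u x) := by
    intro x hx
    apply Real.sin_pos_of_pos_of_lt_pi
    · have := hupos x hx; positivity
    · have := hult x hx; nlinarith
  have hmlim : Tendsto (fun x : P2 => ‖x‖ * u x) (cocompact P2) (𝓝 (ν univ).toReal) := by
    rw [hu]; exact newton_asymp hK hνK
  have hulim : Tendsto u (cocompact P2) (𝓝 0) := by rw [hu]; exact newton_lim hK hνK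
  have hmpos : 0 < (ν univ).toReal := ENNReal.toReal_pos hνne (measure_ne_top _ _)
  have hq := log_asymp hK hμ2
  have hq0 := log_asymp hK hdir
  have hnorm : Tendsto (fun x : P2 => ‖x‖) (cocompact P2) atTop := tendsto_norm_cocompact_atTop
  have hcoK : ∀ᶠ x in cocompact P2, x ∉ K := by
    have := hK.compl_mem_cocompact
    exact this
  -- behaviour at infinity
  have hwq : Tendsto (fun x => -Real.log (Real.sin (Real.pi / 2 * u x)) + LR μ x) (cocompact P2)
      (𝓝 (-Real.log (Real.pi / 2 * (ν univ).toReal))) := by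
    have h1 : Tendsto (fun x : P2 => Real.pi / 2 * (‖x‖ * u x) * Real.sinc (Real.pi / 2 * u x))
        (cocompact P2) (𝓝 (Real.pi / 2 * (ν univ).toReal * Real.sinc (Real.pi / 2 * 0))) := by
      refine (hmlim.const_mul _).mul ?_
      exact (Real.continuous_sinc.tendsto _).comp (hulim.const_mul _)
    rw [mul_zero, Real.sinc_zero, mul_one] at h1
    have h2 := (h1.log (by positivity)).neg.add hq
    rw [add_zero] at h2
    refine h2.congr' ?_
    filter_upwards [hcoK, hnorm.eventually_gt_atTop 0] with x hx hx2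
    have h3 : Real.pi / 2 * (‖x‖ * u x) * Real.sinc (Real.pi / 2 * u x) =
        ‖x‖ * Real.sin (Real.pi / 2 * u x) := by
      have h4 : Real.pi / 2 * u x ≠ 0 := by
        have := hupos x hx
        positivity
      rw [Real.sinc_of_ne_zero h4]
      have := hupos x hx
      field_simp
    rw [h3, Real.log_mul hx2.ne' (hsinpos x hx).ne']
    ring
  have hmain : ∀ ε : ℝ, 0 < ε → ∀ x, x ∉ K →
      (LI R K).toReal - ε + ε * Real.log δ ≤
      -Real.log (Real.sin (Real.pi / 2 * u x)) + LR μ x + Real.log R - ε * u x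
        - ε * LR (Measure.dirac x0) x := by
    intro ε hε
    refine min_plane _ _ hKo ?_ ?_ ?_ ?_
    · refine ContinuousOn.sub (ContinuousOn.sub (ContinuousOn.add (ContinuousOn.add
        (ContinuousOn.neg (ContinuousOn.log ?_ ?_)) (LR_cont hK hμ2)) continuousOn_const) ?_) ?_
      · exact (Real.continuous_sin.comp (continuous_const.mul hucont)).continuousOn
      · intro x hx
        exact (hsinpos x hx).ne'
      · exact (continuous_const.mul hucont).continuousOn
      · exact continuousOn_const.mul (LR_cont hK hdir)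
    · have h1 : Tendsto (fun x : P2 => -(LR (Measure.dirac x0) x)) (cocompact P2) atTop := by
        have h2 : Tendsto (fun x : P2 => -(LR (Measure.dirac x0) x + Real.log ‖x‖) + Real.log ‖x‖)
            (cocompact P2) atTop :=
          (hq0.neg).add_atTop (Real.tendsto_log_atTop.comp hnorm)
        refine h2.congr fun x => ?_
        ring
      have h3 : Tendsto (fun x : P2 => (-Real.log (Real.sin (Real.pi / 2 * u x)) + LR μ x +
          (Real.log R - ε * u x)) + ε * (-(LR (Measure.dirac x0) x))) (cocompact P2) atTop := by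
        refine Tendsto.add_atTop (hwq.add (tendsto_const_nhds.sub (hulim.const_mul ε))) ?_
        exact h1.const_mul_atTop hε
      refine h3.congr fun x => ?_
      ring
    · intro x hx c hc
      obtain ⟨c', hc'⟩ : ∃ c', c' = c + ε - ε * Real.log δ := ⟨_, rfl⟩
      have hc2 : c' < (LI R K).toReal := by rw [hc']; linarith
      have hev1 : ∀ᶠ y in 𝓝 x, dist y x < R / 2 := Metric.ball_mem_nhds x (by positivity)
      have hev2 : ∀ᶠ y in 𝓝 x, 0 ≤ c' → ENNReal.ofReal c' < LP R μ y := by
        by_cases h0 : 0 ≤ c'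
        · obtain ⟨b, hb1, hb2⟩ := hball x hx
          have h1 := log_lower hR hK hδ hb2 hμ1 hμ2 hμ3 x hb1
          have h2 : ENNReal.ofReal c' < LP R μ x := by
            refine lt_of_lt_of_le ?_ h1
            rw [← ENNReal.ofReal_toReal hLt]
            exact (ENNReal.ofReal_lt_ofReal_iff_of_nonneg h0).2 hc2
          filter_upwards [LP_lsc hR μ x _ h2] with y hy _ using hy
        · exact Eventually.of_forall fun y h => absurd h h0
      filter_upwards [hev1, hev2] with y hy1 hy2 hyK
      have hyd : ∀ w ∈ K, dist y w ≤ R := by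
        intro w hw
        have h1 := dist_triangle y x w
        have h2 := hdiam x hx w hw
        linarith
      obtain ⟨hn, he⟩ := LP_eq hK hR hμ2 y hyK hyd
      have h5 : c' < LR μ y + Real.log R := by
        by_cases h0 : 0 ≤ c'
        · have := hy2 h0
          rw [he, ENNReal.ofReal_lt_ofReal_iff_of_nonneg h0] at this
          exact this
        · push Not at h0
          linarith
      have h6 : 0 ≤ -Real.log (Real.sin (Real.pi / 2 * u y)) := by
        have := Real.log_nonpos (hsinpos y hyK).le (Real.sin_le_one _)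
        linarith
      have h7 : ε * u y ≤ ε * 1 := mul_le_mul_of_nonneg_left (hule y) hε.le
      have h8 : ε * Real.log δ ≤ -(ε * LR (Measure.dirac x0) y) := by
        rw [LR_dirac, mul_neg, neg_neg]
        refine mul_le_mul_of_nonneg_left (Real.log_le_log hδ ?_) hε.le
        by_contra hcon
        push Not at hcon
        apply hyK
        apply hx0
        rw [Metric.mem_closedBall, dist_eq_norm]
        exact hcon.le
      linarith
    · intro x hx hmin
      have hx' := (hKo.mem_nhds hx)
      have hUR0 : u x = UR 1 ν x 0 := huUR x hx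
      have hgrad := grad_ineq hK hνK x hx hPE (by rw [← hUR0]; exact hupos x hx)
        (by rw [← hUR0]; exact hult x hx)
      have hL := UR_lap_plane hK hνK x hx
      have hLpos : 0 < GR 1 ν x 0 := GR_pos one_pos hK hνK hνne x 0 (Or.inl hx)
      have hj : ∀ e : P2, 0 ≤ (Real.pi ^ 2 / 4) * (deriv (fun t : ℝ => UR 1 ν (x + t • e) 0) 0) ^ 2 /
          Real.sin (Real.pi / 2 * UR 1 ν (x + (0:ℝ) • e) 0) ^ 2 -
          (Real.pi / 2) * (Real.cos (Real.pi / 2 * UR 1 ν (x + (0:ℝ) • e) 0) /
            Real.sin (Real.pi / 2 * UR 1 ν (x + (0:ℝ) • e) 0)) *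
          deriv (deriv (fun t : ℝ => UR 1 ν (x + t • e) 0)) 0 +
          deriv (deriv (fun t : ℝ => LR μ (x + t • e))) 0 -
          ε * deriv (deriv (fun t : ℝ => UR 1 ν (x + t • e) 0)) 0 -
          ε * deriv (deriv (fun t : ℝ => LR (Measure.dirac x0) (x + t • e))) 0 := fun e => by
        have cU : ContDiffAt ℝ 2 (fun t : ℝ => UR 1 ν (x + t • e) 0) 0 := by
          have := (UR_smooth one_pos hK hνK x 0 (Or.inl hx) e 0).1
          simpa only [mul_zero, add_zero] using this
        have cQ := (LR_smooth hK hμ2 x hx e).1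
        have cD := (LR_smooth hK hdir x hx e).1
        have h0 : 0 < UR 1 ν (x + (0:ℝ) • e) 0 := by
          rw [zero_smul, add_zero, ← hUR0]; exact hupos x hx
        have h1 : UR 1 ν (x + (0:ℝ) • e) 0 < 1 := by
          rw [zero_smul, add_zero, ← hUR0]; exact hult x hx
        have hloc : IsLocalMin (fun t : ℝ =>
            -Real.log (Real.sin (Real.pi / 2 * UR 1 ν (x + t • e) 0)) + LR μ (x + t • e) +
              Real.log R - ε * UR 1 ν (x + t • e) 0 - ε * LR (Measure.dirac x0) (x + t • e)) 0 := by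
          have hct : Continuous fun t : ℝ => x + t • e := by fun_prop
          have hmem : ∀ᶠ t : ℝ in 𝓝 0, x + t • e ∉ K := by
            have h7 : ContinuousAt (fun t : ℝ => x + t • e) 0 := hct.continuousAt
            have h8 : Kᶜ ∈ 𝓝 (x + (0:ℝ) • e) := by
              rw [zero_smul, add_zero]
              exact hx'
            exact h7.preimage_mem_nhds h8
          filter_upwards [hmem] with t ht
          have := hmin _ ht
          rw [huUR _ ht, huUR _ hx] at this
          simpa only [zero_smul, add_zero] using this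
        exact calc_dir cU cQ cD h0 h1 hloc
      have hsum := Finset.sum_nonneg (s := (Finset.univ : Finset (Fin 2))) fun j _ =>
        hj (EuclideanSpace.single j (1 : ℝ))
      simp only [zero_smul, add_zero] at hsum
      rw [Finset.sum_sub_distrib, Finset.sum_sub_distrib, Finset.sum_add_distrib,
        Finset.sum_sub_distrib, ← Finset.mul_sum, ← Finset.mul_sum, ← Finset.mul_sum, hL,
        LR_lap hK hμ2 x hx, LR_lap hK hdir x hx, ← Finset.sum_div, ← Finset.mul_sum] at hsum
      have hs := hsinpos x hx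
      rw [hUR0] at hs
      have h2s : Real.sin (Real.pi * UR 1 ν x 0) = 2 * Real.sin (Real.pi / 2 * UR 1 ν x 0) *
          Real.cos (Real.pi / 2 * UR 1 ν x 0) := by
        rw [← Real.sin_two_mul]
        congr 1
        ring
      rw [h2s] at hgrad
      generalize Real.sin (Real.pi / 2 * UR 1 ν x 0) = s at *
      generalize Real.cos (Real.pi / 2 * UR 1 ν x 0) = c at *
      generalize GR 1 ν x 0 = L at *
      generalize (∑ j : Fin 2, (deriv (fun ε : ℝ =>
        UR 1 ν (x + ε • EuclideanSpace.single j (1 : ℝ)) 0) 0) ^ 2) = G at *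
      have h9 : Real.pi ^ 2 / 4 * G / s ^ 2 ≤ Real.pi / 2 * (c / s) * L := by
        rw [div_le_iff₀ (by positivity)]
        have : Real.pi / 2 * (c / s) * L * s ^ 2 = Real.pi / 4 * (2 * s * c * L) := by
          field_simp
          ring
        rw [this]
        nlinarith
      have h10 : 0 < ε * L := mul_pos hε hLpos
      linarith
  -- let the parameters tend to zero
  have hfin : ∀ x, x ∉ K → (LI R K).toReal ≤
      -Real.log (Real.sin (Real.pi / 2 * u x)) + LR μ x + Real.log R := by
    intro x hx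
    have h1 : Tendsto (fun ε : ℝ => (LI R K).toReal - ε + ε * Real.log δ) (𝓝[>] 0)
        (𝓝 (LI R K).toReal) := by
      have hc : Continuous fun ε : ℝ => (LI R K).toReal - ε + ε * Real.log δ := by fun_prop
      have := hc.tendsto 0
      rw [sub_zero, zero_mul, add_zero] at this
      exact this.mono_left nhdsWithin_le_nhds
    have h2 : Tendsto (fun ε : ℝ => -Real.log (Real.sin (Real.pi / 2 * u x)) + LR μ x +
        Real.log R - ε * u x - ε * LR (Measure.dirac x0) x) (𝓝[>] 0)
        (𝓝 (-Real.log (Real.sin (Real.pi / 2 * u x)) + LR μ x + Real.log R)) := by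
      have hc : Continuous fun ε : ℝ => -Real.log (Real.sin (Real.pi / 2 * u x)) + LR μ x +
        Real.log R - ε * u x - ε * LR (Measure.dirac x0) x := by fun_prop
      have := hc.tendsto 0
      rw [zero_mul, zero_mul, sub_zero, sub_zero] at this
      exact this.mono_left nhdsWithin_le_nhds
    refine le_of_tendsto_of_tendsto h1 h2 ?_
    filter_upwards [self_mem_nhdsWithin] with ε hε
    exact hmain ε hε x hx
  have hlast : (LI R K).toReal ≤ -Real.log (Real.pi / 2 * (ν univ).toReal) + Real.log R := by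
    refine ge_of_tendsto (hwq.add_const (Real.log R)) ?_
    filter_upwards [hcoK] with x hx
    exact hfin x hx
  rw [← hνu]
  have h1 : Real.log (Real.pi / 2 * (ν univ).toReal) ≤ Real.log R - (LI R K).toReal := by linarith
  have h2 := Real.exp_le_exp.2 h1
  rw [Real.exp_log (by positivity), sub_eq_add_neg, Real.exp_add, Real.exp_log hR] at h2
  exact h2

end Pool.Agent.W784.PS
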