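import Pool.Agent.W784.PS.Semi

set_option autoImplicit false
open MeasureTheory Set Filter Topology
open scoped ENNReal NNReal

namespace Pool.Agent.W784.PS

open Pool.Agent.Helper88.RB

theorem ofReal_int_le {X : Type} [MeasurableSpace X] {μ : Measure X} {f : X → ℝ}
    (hf : Integrable f μ) : ENNReal.ofReal (∫ x, f x ∂μ) ≤ ∫⁻ x, ENNReal.ofReal (f x) ∂μ := by
  have h1 : ∫ x, f x ∂μ ≤ ∫ x, max (f x) 0 ∂μ :=
    integral_mono hf hf.pos_part fun x => le_max_left _ _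
  refine (ENNReal.ofReal_le_ofReal h1).trans ?_
  rw [ofReal_integral_eq_lintegral_ofReal hf.pos_part (Eventually.of_forall fun x => le_max_right _ _)]
  refine lintegral_mono fun x => ?_
  rw [ENNReal.ofReal_max, ENNReal.ofReal_zero, max_eq_left zero_le]

/-- inversion identity -/
theorem inv_dist (y w : P2) (hy : y ≠ 0) (hw : w ≠ 0) :
    dist ((‖y‖ ^ 2)⁻¹ • y) w * ‖y‖ = ‖w‖ * dist ((‖w‖ ^ 2)⁻¹ • w) y := by
  have hy' : 0 < ‖y‖ := norm_pos_iff.2 hy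
  have hw' : 0 < ‖w‖ := norm_pos_iff.2 hw
  rw [dist_eq_norm, dist_eq_norm]
  have h : (‖(‖y‖ ^ 2)⁻¹ • y - w‖ * ‖y‖) ^ 2 = (‖w‖ * ‖(‖w‖ ^ 2)⁻¹ • w - y‖) ^ 2 := by
    rw [mul_pow, mul_pow, norm_sub_sq_real, norm_sub_sq_real, norm_smul, norm_smul,
      inner_smul_left, inner_smul_left, real_inner_comm y w, Real.norm_of_nonneg (by positivity),
      Real.norm_of_nonneg (by positivity)]
    simp only [conj_trivial]
    field_simp
  exact (pow_left_inj₀ (by positivity) (by positivity) two_ne_zero).1 h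

theorem pointwise {S : Set P2} (hS : IsCompact S) {ν : Measure P2} [IsFiniteMeasure ν]
    (hν : ν Sᶜ = 0) (x : P2) (hx : x ∉ S) (hle : ∀ z, PE 1 ν z ≤ 1)
    (m : ℝ) (hm : m = ∫ y, ‖y - x‖⁻¹ ∂ν) (hm0 : 0 < m) (hm1 : m < 1) (c : P2) :
    2 * ∫ y, inner ℝ (y - x) c * (‖y - x‖⁻¹) ^ 3 ∂ν ≤
      ∫ y, (‖y - x‖⁻¹) ^ 3 ∂ν + ‖c‖ ^ 2 * (Real.sin (Real.pi * m) / Real.pi) := by
  have hpi := Real.pi_pos
  obtain ⟨α, hα⟩ : ∃ α, α = Real.pi * m / 2 := ⟨_, rfl⟩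
  have hα0 : 0 < α := by rw [hα]; positivity
  have hα1 : α < Real.pi / 2 := by rw [hα]; nlinarith
  have hae : ∀ᵐ w ∂ν, w ∈ S := by rw [ae_iff]; exact hν
  have hres : ν.restrict S = ν := Measure.restrict_eq_self_of_ae_mem hae
  have hint : ∀ f : P2 → ℝ, ContinuousOn f S → Integrable f ν := by
    intro f hf
    have := hf.integrableOn_compact (μ := ν) hS
    rwa [IntegrableOn, hres] at this
  have hne : ∀ y ∈ S, y - x ≠ 0 := fun y hy h => hx (by rw [← sub_eq_zero.1 h]; exact hy)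
  have hnp : ∀ y ∈ S, 0 < ‖y - x‖ := fun y hy => norm_pos_iff.2 (hne y hy)
  have cinv : ContinuousOn (fun y : P2 => ‖y - x‖⁻¹) S :=
    (by fun_prop : Continuous fun y : P2 => ‖y - x‖).continuousOn.inv₀ fun y hy => (hnp y hy).ne'
  obtain ⟨τ, hτ⟩ : ∃ τ : P2 → ℝ≥0∞, τ = fun w =>
    ENNReal.ofReal (Real.sqrt ((‖c‖ * Real.sin α) ^ 2 - ‖w - c‖ ^ 2)) := ⟨_, rfl⟩
  have hτm : Measurable τ := by
    rw [hτ]; exact ENNReal.measurable_ofReal.comp (by fun_prop)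
  -- upper bound
  have hup : ∫⁻ y, (∫⁻ w, τ w * (ENNReal.ofReal (dist ((‖y - x‖ ^ 2)⁻¹ • (y - x)) w)) ^ (-(1:ℝ))) *
      (ENNReal.ofReal ‖y - x‖) ^ (-(1:ℝ)) ∂ν ≤
      ENNReal.ofReal (Real.pi / 4 * ‖c‖ ^ 2 *
      (4 * α * Real.sin α ^ 2 - 2 * α + Real.sin (2 * α))) := by
    have hF : Measurable (fun p : P2 × P2 => τ p.2 *
        (ENNReal.ofReal (dist ((‖p.1 - x‖ ^ 2)⁻¹ • (p.1 - x)) p.2)) ^ (-(1:ℝ)) *
        (ENNReal.ofReal ‖p.1 - x‖) ^ (-(1:ℝ))) := by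
      have e1 : Measurable (fun p : P2 × P2 => (‖p.1 - x‖ ^ 2)⁻¹ • (p.1 - x)) := by fun_prop
      have e2 : Measurable (fun p : P2 × P2 => dist ((‖p.1 - x‖ ^ 2)⁻¹ • (p.1 - x)) p.2) :=
        e1.dist measurable_snd
      exact ((hτm.comp measurable_snd).mul ((ENNReal.measurable_ofReal.comp e2).pow_const _)).mul
        ((ENNReal.measurable_ofReal.comp (by fun_prop)).pow_const _)
    have h1 : ∫⁻ y, (∫⁻ w, τ w * (ENNReal.ofReal (dist ((‖y - x‖ ^ 2)⁻¹ • (y - x)) w)) ^ (-(1:ℝ))) *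
      (ENNReal.ofReal ‖y - x‖) ^ (-(1:ℝ)) ∂ν =
      ∫⁻ y, (∫⁻ w, τ w * (ENNReal.ofReal (dist ((‖y - x‖ ^ 2)⁻¹ • (y - x)) w)) ^ (-(1:ℝ)) *
      (ENNReal.ofReal ‖y - x‖) ^ (-(1:ℝ))) ∂ν := by
      refine lintegral_congr fun y => ?_
      rw [lintegral_mul_const]
      exact hτm.mul ((ENNReal.measurable_ofReal.comp (by fun_prop)).pow_const _)
    rw [h1, lintegral_lintegral_swap hF.aemeasurable, ← semi_zero c α hα0 hα1]
    have hae0 : ∀ᵐ w : P2, w ≠ 0 := by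
      rw [ae_iff]; simp
    refine lintegral_mono_ae ?_
    filter_upwards [hae0] with w hw
    have hw' : 0 < ‖w‖ := norm_pos_iff.2 hw
    have h2 : ∫⁻ y, τ w * (ENNReal.ofReal (dist ((‖y - x‖ ^ 2)⁻¹ • (y - x)) w)) ^ (-(1:ℝ)) *
        (ENNReal.ofReal ‖y - x‖) ^ (-(1:ℝ)) ∂ν =
        ∫⁻ y, τ w * (ENNReal.ofReal ‖w‖) ^ (-(1:ℝ)) *
          (ENNReal.ofReal (dist (x + (‖w‖ ^ 2)⁻¹ • w) y)) ^ (-(1:ℝ)) ∂ν := by
      refine lintegral_congr_ae ?_
      filter_upwards [hae] with y hy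
      rw [mul_assoc, mul_assoc]
      congr 1
      rw [← ENNReal.mul_rpow_of_ne_top ENNReal.ofReal_ne_top ENNReal.ofReal_ne_top,
        ← ENNReal.mul_rpow_of_ne_top ENNReal.ofReal_ne_top ENNReal.ofReal_ne_top,
        ← ENNReal.ofReal_mul dist_nonneg, ← ENNReal.ofReal_mul (norm_nonneg _),
        inv_dist _ _ (hne y hy) hw]
      congr 3
      rw [dist_eq_norm, dist_eq_norm]
      congr 1
      abel
    rw [h2, lintegral_const_mul]
    · have h3 := hle (x + (‖w‖ ^ 2)⁻¹ • w)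
      unfold PE at h3
      calc _ ≤ τ w * (ENNReal.ofReal ‖w‖) ^ (-(1:ℝ)) * 1 := by gcongr
        _ = _ := by
          rw [mul_one, hτ, dist_zero_left]
    · exact (ENNReal.measurable_ofReal.comp (by fun_prop)).pow_const _
  -- lower bound
  have hlow : ENNReal.ofReal (∫ y, Real.pi ^ 2 / 4 * (2 * (‖c‖ * Real.sin α) ^ 2 -
      ‖(‖y - x‖ ^ 2)⁻¹ • (y - x) - c‖ ^ 2) * ‖y - x‖⁻¹ ∂ν) ≤
      ∫⁻ y, (∫⁻ w, τ w * (ENNReal.ofReal (dist ((‖y - x‖ ^ 2)⁻¹ • (y - x)) w)) ^ (-(1:ℝ))) *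
      (ENNReal.ofReal ‖y - x‖) ^ (-(1:ℝ)) ∂ν := by
    refine (ofReal_int_le (hint _ ?_)).trans ?_
    · refine ContinuousOn.mul (continuousOn_const.mul (continuousOn_const.sub ?_)) cinv
      refine ContinuousOn.pow (ContinuousOn.norm ?_) 2
      have hc2 : ContinuousOn (fun y : P2 => ‖y - x‖ ^ 2) S := by fun_prop
      have hc3 : ContinuousOn (fun y : P2 => (‖y - x‖ ^ 2)⁻¹) S :=
        hc2.inv₀ fun y hy => by have := hnp y hy; positivity
      have hc4 : ContinuousOn (fun y : P2 => y - x) S := by fun_prop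
      exact (hc3.smul hc4).sub continuousOn_const
    · refine lintegral_mono_ae ?_
      filter_upwards [hae] with y hy
      have hp := hnp y hy
      rw [ENNReal.ofReal_mul' (by positivity), ENNReal.ofReal_inv_of_pos hp, ENNReal.rpow_neg_one]
      refine mul_le_mul_left ?_ _
      have := semi_low c ((‖y - x‖ ^ 2)⁻¹ • (y - x)) (‖c‖ * Real.sin α)
      rw [hτ]
      exact this
  have hnn : 0 ≤ 4 * α * Real.sin α ^ 2 - 2 * α + Real.sin (2 * α) := by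
    rw [← theta_int α 0 hα0 hα1]
    exact intervalIntegral.integral_nonneg (by linarith) fun θ _ => le_max_right _ _
  have hreal := (ENNReal.ofReal_le_ofReal_iff (by positivity)).1 (hlow.trans hup)
  have hexp : ∫ y, Real.pi ^ 2 / 4 * (2 * (‖c‖ * Real.sin α) ^ 2 -
      ‖(‖y - x‖ ^ 2)⁻¹ • (y - x) - c‖ ^ 2) * ‖y - x‖⁻¹ ∂ν =
      Real.pi ^ 2 / 4 * ((2 * (‖c‖ * Real.sin α) ^ 2 - ‖c‖ ^ 2) * m
        - ∫ y, (‖y - x‖⁻¹) ^ 3 ∂ν + 2 * ∫ y, inner ℝ (y - x) c * (‖y - x‖⁻¹) ^ 3 ∂ν) := by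
    have i1 : Integrable (fun y => (2 * (‖c‖ * Real.sin α) ^ 2 - ‖c‖ ^ 2) * ‖y - x‖⁻¹) ν :=
      hint _ (continuousOn_const.mul cinv)
    have i2 : Integrable (fun y => (‖y - x‖⁻¹) ^ 3) ν := hint _ (cinv.pow 3)
    have i3 : Integrable (fun y => 2 * (inner ℝ (y - x) c * (‖y - x‖⁻¹) ^ 3)) ν :=
      hint _ (continuousOn_const.mul (ContinuousOn.mul (by fun_prop) (cinv.pow 3)))
    have i12 : Integrable (fun y => (2 * (‖c‖ * Real.sin α) ^ 2 - ‖c‖ ^ 2) * ‖y - x‖⁻¹ -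
      (‖y - x‖⁻¹) ^ 3) ν := i1.sub i2
    rw [hm, ← integral_const_mul, ← integral_const_mul, ← integral_sub i1 i2,
      ← integral_add i12 i3, ← integral_const_mul]
    refine integral_congr_ae ?_
    filter_upwards [hae] with y hy
    have hp := hnp y hy
    rw [norm_sub_sq_real, norm_smul, inner_smul_left, Real.norm_of_nonneg (by positivity)]
    simp only [conj_trivial]
    field_simp
    ring
  rw [hexp] at hreal
  have h2a : 2 * α = Real.pi * m := by rw [hα]; ring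
  have h4a : 4 * α = 2 * (Real.pi * m) := by rw [hα]; ring
  rw [h2a, h4a] at hreal
  have h5 : Real.pi / 4 * ‖c‖ ^ 2 * (2 * (Real.pi * m) * Real.sin α ^ 2 - Real.pi * m +
      Real.sin (Real.pi * m)) = Real.pi ^ 2 / 4 * (‖c‖ ^ 2 * ((2 * Real.sin α ^ 2 - 1) * m
        + Real.sin (Real.pi * m) / Real.pi)) := by
    field_simp
  rw [h5] at hreal
  have h6 := le_of_mul_le_mul_left hreal (by positivity)
  nlinarith [h6]

end Pool.Agent.W784.PS
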