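import Pool.Agent.W784.PS.Defs
import Pool.Agent.W784.PS.Lower
import Pool.Agent.W784.PS.Asym
import Pool.Agent.W784.PS.Point
import Pool.Agent.Helper88.RB.P_exists_min
import Pool.Agent.Helper88.RB.P_exists_bdd
import Pool.Agent.Helper88.RB.P_EI_pos
import Pool.Agent.Helper88.RB.P_upper
import Pool.Agent.Helper88.RB.P_PX_cont
import Pool.Agent.Helper88.RB.P_PX_ne_top
import Pool.Agent.Helper88.RB.P_UR_smooth
import Pool.Agent.Helper88.RB.P_UR_lap
import Pool.Agent.Helper88.RB.P_GR_pos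
import Pool.Agent.Helper88.RB.P_max_principle
import Pool.Agent.Helper88.RB.P_equilibrium

set_option autoImplicit false
open MeasureTheory Set Filter Topology
open scoped ENNReal NNReal

namespace Pool.Agent.W784.PS

open Pool.Agent.Helper88.RB

theorem max_plane {S : Set P2} (U : P2 → ℝ) (cont : Continuous U) (one : ∀ x ∈ S, U x = 1)
    (lim : Tendsto U (cocompact P2) (𝓝 0))
    (smooth : ∀ x, x ∉ S → ∀ e : P2, ContDiffAt ℝ 2 (fun ε : ℝ => U (x + ε • e)) 0)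
    (eqn : ∀ x, x ∉ S → 0 < ∑ j : Fin 2,
      deriv (deriv (fun ε : ℝ => U (x + ε • EuclideanSpace.single j (1 : ℝ)))) 0) :
    (∀ x, U x ≤ 1) ∧ (∀ x, x ∉ S → U x < 1) := by
  have key : ∀ x, x ∉ S → (∀ x', U x' ≤ U x) → False := by
    intro x hx hmax
    have h1 : ∀ j : Fin 2, deriv (deriv (fun ε : ℝ =>
        U (x + ε • EuclideanSpace.single j (1 : ℝ)))) 0 ≤ 0 := by
      intro j
      apply mp_deriv2_nonpos _ (smooth x hx _)
      refine Filter.Eventually.of_forall fun ε => ?_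
      have := hmax (x + ε • EuclideanSpace.single j (1 : ℝ))
      simp only [zero_smul, add_zero]
      exact this
    have h3 := Finset.sum_nonpos (s := (Finset.univ : Finset (Fin 2))) fun j _ => h1 j
    have := eqn x hx
    linarith
  have hle : ∀ x, U x ≤ 1 := by
    intro x0
    by_contra hcon
    push Not at hcon
    have hev : ∀ᶠ p in cocompact P2, U p ≤ U x0 := by
      have h1 : ∀ᶠ p in cocompact P2, U p < 1 :=
        lim.eventually (gt_mem_nhds (by norm_num : (0 : ℝ) < 1))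
      filter_upwards [h1] with p hp
      linarith
    obtain ⟨q, hq⟩ := cont.exists_forall_ge' x0 hev
    have hq0 := hq x0
    refine key q ?_ hq
    intro hqS
    have := one q hqS
    linarith
  refine ⟨hle, ?_⟩
  intro x hx
  rcases lt_or_eq_of_le (hle x) with h | h
  · exact h
  · exact (key x hx (fun x' => by rw [h]; exact hle x')).elim

theorem UR_lap_plane {S : Set P2} (hS : IsCompact S)
    {μ : Measure P2} [IsFiniteMeasure μ] (hμ : μ Sᶜ = 0) (x : P2) (hx : x ∉ S) :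
    (∑ j : Fin 2, deriv (deriv (fun ε : ℝ =>
      UR 1 μ (x + ε • EuclideanSpace.single j (1 : ℝ)) 0)) 0) = GR 1 μ x 0 := by
  have h1 := (UR_lap one_pos hS hμ x 0 (Or.inl hx)).2
  have h2 := (UR_smooth one_pos hS hμ x 0 (Or.inl hx) 0 1).2.2
  have h3 : (fun ε : ℝ => UR 1 μ (x + ε • (0 : E 2)) (0 + ε * 1)) = fun ε : ℝ => UR 1 μ x (0 + ε) := by
    funext ε
    rw [smul_zero, add_zero, mul_one]
  rw [h3] at h2
  have h4 : ∫ w, ((-1 : ℝ) * (‖(0 : E 2)‖ ^ 2 + (1:ℝ) ^ 2) * (‖x - w‖ ^ 2 + (0:ℝ) ^ 2) ^ (-(1:ℝ) / 2 - 1) +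
      1 * (1 + 2) * (inner ℝ (x - w) (0 : E 2) + 0 * 1) ^ 2 *
        (‖x - w‖ ^ 2 + (0:ℝ) ^ 2) ^ (-(1:ℝ) / 2 - 2)) ∂μ = - GR 1 μ x 0 := by
    unfold GR
    rw [← integral_neg]
    refine integral_congr_ae (Eventually.of_forall fun w => ?_)
    simp
  rw [h4] at h2
  rw [h2] at h1
  have h5 : (1 : ℝ) * (1 + 1 - ((2 : ℕ) : ℝ)) * GR 1 μ x 0 = 0 := by norm_num
  rw [h5] at h1
  linarith

theorem newton {K : Set P2} (hK : IsCompact K) (hne : K.Nonempty) {δ : ℝ} (hδ : 0 < δ)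
    (hball : ∀ x ∈ K, ∃ c, x ∈ Metric.closedBall c δ ∧ Metric.closedBall c δ ⊆ K) :
    EI 1 K ≠ 0 ∧ EI 1 K ≠ ∞ ∧ ∃ ν : Measure P2, IsFiniteMeasure ν ∧ ν Kᶜ = 0 ∧
      ν univ = (EI 1 K)⁻¹ ∧ Continuous (fun x => (PX 1 ν x 0).toReal) ∧ (∀ x, PE 1 ν x ≤ 1) ∧
      (∀ x, x ∉ K → (PX 1 ν x 0).toReal < 1) := by
  have hs : (0 : ℝ) < 1 := one_pos
  have hsn : (1 : ℝ) < (2 : ℕ) := by norm_num
  have hint : ∀ c : P2, (interior (Metric.closedBall c δ)).Nonempty := fun c =>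
    ⟨c, Metric.ball_subset_interior_closedBall (Metric.mem_ball_self hδ)⟩
  have hI0 : EI 1 K ≠ 0 := (EI_pos hs hK).ne'
  have hIt : EI 1 K ≠ ∞ := by
    obtain ⟨x, hx⟩ := hne
    obtain ⟨c, hc1, hc2⟩ := hball x hx
    obtain ⟨σ, s1, s2, M, hM, hb⟩ := exists_bdd hs hsn (hint c)
    have h1 : EI 1 K ≤ En 1 σ := by
      unfold EI
      exact iInf_le_of_le σ (iInf_le_of_le s1 (iInf_le_of_le
        (measure_mono_null (compl_subset_compl.2 hc2) s2) le_rfl))
    have h2 : En 1 σ ≤ M := by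
      unfold En
      calc (∫⁻ x, ∫⁻ y, (ENNReal.ofReal (dist x y)) ^ (-(1:ℝ)) ∂σ ∂σ) ≤ ∫⁻ _x, M ∂σ :=
            lintegral_mono (fun x => hb x)
        _ = M := by rw [lintegral_const, s1, mul_one]
    exact ne_top_of_le_ne_top hM (h1.trans h2)
  refine ⟨hI0, hIt, ?_⟩
  obtain ⟨μ0, m1, m2, m3⟩ := exists_min hs hK hne
  have hlow : ∀ x ∈ K, EI 1 K ≤ PE 1 μ0 x := by
    intro x hx
    obtain ⟨c, hc1, hc2⟩ := hball x hx
    exact lower' hs hsn hK (isCompact_closedBall c δ) hc2 (convex_closedBall c δ) (hint c) m1 m2 m3 x hc1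
  have hup := fun x hx => upper hs m1 m2 m3 hIt hlow x hx
  obtain ⟨μ, hμdef⟩ : ∃ μ : Measure P2, μ = (EI 1 K)⁻¹ • μ0 := ⟨_, rfl⟩
  have hμuniv : μ Set.univ = (EI 1 K)⁻¹ := by
    rw [hμdef, Measure.smul_apply, m1, smul_eq_mul, mul_one]
  have hμK : μ Kᶜ = 0 := by
    rw [hμdef, Measure.smul_apply, m2, smul_zero]
  have hcinv : (EI 1 K)⁻¹ ≠ ∞ := ENNReal.inv_ne_top.2 hI0
  have hfin : IsFiniteMeasure μ := ⟨by rw [hμuniv]; exact lt_top_iff_ne_top.2 hcinv⟩
  have hPE : ∀ x, PE 1 μ x = (EI 1 K)⁻¹ * PE 1 μ0 x := by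
    intro x
    unfold PE
    rw [hμdef, lintegral_smul_measure, smul_eq_mul]
  obtain ⟨S, hSdef⟩ : ∃ S : Set P2, S = μ0.support := ⟨_, rfl⟩
  have hSclosed : IsClosed S := by rw [hSdef]; exact Measure.isClosed_support
  have hSK : S ⊆ K := by
    intro x hx
    by_contra hxK
    rw [hSdef, Measure.mem_support_iff_forall] at hx
    have := hx Kᶜ (hK.isClosed.isOpen_compl.mem_nhds hxK)
    rw [m2] at this
    exact lt_irrefl _ this
  have hS : IsCompact S := hK.of_isClosed_subset hSclosed hSK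
  have hμS : μ Sᶜ = 0 := by
    rw [hμdef, Measure.smul_apply, hSdef, Measure.measure_compl_support, smul_zero]
  have hS1 : ∀ x ∈ S, PE 1 μ x = 1 := by
    intro x hx
    have hxS := hx
    rw [hSdef, Measure.mem_support_iff_forall] at hx
    have e1 : PE 1 μ0 x = EI 1 K := le_antisymm (hup x hx) (hlow x (hSK hxS))
    rw [hPE, e1, ENNReal.inv_mul_cancel hI0 hIt]
  have hPXcont := PX_cont hs hS hμS hS1
  have hPXtop : ∀ x, PX 1 μ x 0 ≠ ∞ := by
    intro x
    by_cases hxy : x ∉ S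
    · exact (PX_ne_top hs hS hμS x 0 (Or.inl hxy)).1
    · push Not at hxy
      rw [aux_PX_zero, hS1 x hxy]
      exact ENNReal.one_ne_top
  have hcont : Continuous (fun x : P2 => (PX 1 μ x 0).toReal) := by
    rw [continuous_iff_continuousAt]
    intro x
    have h1 : ContinuousAt (fun x : P2 => PX 1 μ x 0) x :=
      (hPXcont.comp (by fun_prop : Continuous fun x : P2 => (x, (0:ℝ)))).continuousAt
    exact (ENNReal.tendsto_toReal (hPXtop x)).comp h1
  have hev : ∀ x, x ∉ S → ∀ (e : P2),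
      (fun ε : ℝ => (PX 1 μ (x + ε • e) 0).toReal) =ᶠ[𝓝 0]
      (fun ε : ℝ => UR 1 μ (x + ε • e) 0) := by
    intro x hx e
    have h1 := aux_good hSclosed x 0 (Or.inl hx) e 0
    filter_upwards [h1] with ε hε
    rcases hε with hε | hε
    · exact (PX_ne_top hs hS hμS _ _ (Or.inl hε)).2
    · simp at hε
  have hμne : μ Set.univ ≠ 0 := by
    rw [hμuniv]
    exact ENNReal.inv_ne_zero.2 hIt
  obtain ⟨hle, hlt⟩ := max_plane (S := S) (fun x => (PX 1 μ x 0).toReal) hcont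
    (by intro x hx; show (PX 1 μ x 0).toReal = 1; rw [aux_PX_zero, hS1 x hx, ENNReal.toReal_one])
    (newton_lim hS hμS)
    (by
      intro x hx e
      have h1 := (UR_smooth hs hS hμS x 0 (Or.inl hx) e 0).1
      simp only [mul_zero, add_zero] at h1
      exact h1.congr_of_eventuallyEq (hev x hx e))
    (by
      intro x hx
      have h1 : ∀ j : Fin 2, deriv (deriv (fun ε : ℝ =>
          (PX 1 μ (x + ε • EuclideanSpace.single j (1 : ℝ)) 0).toReal)) 0 =
          deriv (deriv (fun ε : ℝ => UR 1 μ (x + ε • EuclideanSpace.single j (1 : ℝ)) 0)) 0 :=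
        fun j => (hev x hx _).deriv.deriv_eq
      rw [Finset.sum_congr rfl fun j _ => h1 j, UR_lap_plane hS hμS x hx]
      exact GR_pos hs hS hμS hμne x 0 (Or.inl hx))
  refine ⟨μ, hfin, hμK, hμuniv, hcont, ?_, fun x hx => hlt x (fun h => hx (hSK h))⟩
  intro x
  rw [← aux_PX_zero, ← ENNReal.ofReal_toReal (hPXtop x), ← ENNReal.ofReal_one]
  exact ENNReal.ofReal_le_ofReal (hle x)

end Pool.Agent.W784.PS
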