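import Pool.Agent.W784.PS.Defs

set_option autoImplicit false
open MeasureTheory Set Filter Topology
open scoped ENNReal NNReal

namespace Pool.Agent.W784.PS

open Pool.Agent.Helper88.RB

theorem uv_zero (θ : ℝ) : (uv θ) 0 = Real.cos θ := rfl
theorem uv_one (θ : ℝ) : (uv θ) 1 = Real.sin θ := rfl

theorem uv_cont : Continuous uv := by
  unfold uv
  refine (PiLp.continuous_toLp 2 _).comp ?_
  refine continuous_pi fun i => ?_
  fin_cases i
  · exact Real.continuous_cos
  · exact Real.continuous_sin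

theorem uv_norm (θ : ℝ) : ‖uv θ‖ = 1 := by
  rw [EuclideanSpace.norm_eq]
  simp [Fin.sum_univ_two, uv_zero, uv_one]

theorem polar_lint (f : P2 → ℝ≥0∞) (hf : Measurable f) :
    ∫⁻ w, f w = ∫⁻ θ in Ioo (-Real.pi) Real.pi, ∫⁻ t in Ioi (0 : ℝ),
      ENNReal.ofReal t * f (t • uv θ) := by
  have hmp : MeasurePreserving (Complex.orthonormalBasisOneI.repr : ℂ → P2) :=
    LinearIsometryEquiv.measurePreserving _
  have h1 : ∫⁻ w, f w = ∫⁻ ζ : ℂ, f (Complex.orthonormalBasisOneI.repr ζ) :=
    (hmp.lintegral_comp hf).symm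
  have hval : ∀ p : ℝ × ℝ, (Complex.orthonormalBasisOneI.repr (Complex.polarCoord.symm p) : P2)
      = p.1 • uv p.2 := by
    intro p
    rw [Complex.polarCoord_symm_apply]
    ext i
    have : (Complex.orthonormalBasisOneI.repr
        ((p.1 : ℂ) * (Real.cos p.2 + Real.sin p.2 * Complex.I)) : P2) i =
        (![((p.1 : ℂ) * (Real.cos p.2 + Real.sin p.2 * Complex.I)).re,
          ((p.1 : ℂ) * (Real.cos p.2 + Real.sin p.2 * Complex.I)).im] : Fin 2 → ℝ) i := by
      rw [← Complex.orthonormalBasisOneI_repr_apply]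
    rw [this]
    fin_cases i
    · simp [uv, Complex.cos_ofReal_re]
    · simp [uv, Complex.sin_ofReal_re]
  rw [h1, ← Complex.lintegral_comp_polarCoord_symm]
  have h2 : (∫⁻ p in polarCoord.target, ENNReal.ofReal p.1 •
      f (Complex.orthonormalBasisOneI.repr (Complex.polarCoord.symm p))) =
      ∫⁻ p in (Ioi (0 : ℝ)) ×ˢ (Ioo (-Real.pi) Real.pi), ENNReal.ofReal p.1 *
        f (p.1 • uv p.2) := by
    refine lintegral_congr fun p => ?_
    rw [hval, smul_eq_mul]
  rw [h2, Measure.volume_eq_prod, setLIntegral_prod_symm]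
  refine AEMeasurable.mul ?_ ?_
  · exact (ENNReal.measurable_ofReal.comp measurable_fst).aemeasurable
  · refine (hf.comp ?_).aemeasurable
    exact (continuous_fst.smul (uv_cont.comp continuous_snd)).measurable

theorem half_polar (g : P2 → ℝ≥0∞) (hg : Measurable g) (z : P2) :
    ∫⁻ w, g w * (ENNReal.ofReal (dist z w)) ^ (-(1:ℝ)) =
      ∫⁻ θ in Ioo (-Real.pi) Real.pi, ∫⁻ t in Ioi (0 : ℝ), g (z + t • uv θ) := by
  have h1 : ∫⁻ w, g w * (ENNReal.ofReal (dist z w)) ^ (-(1:ℝ)) =
      ∫⁻ w, g (z + w) * (ENNReal.ofReal ‖w‖) ^ (-(1:ℝ)) := by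
    have h0 := lintegral_add_left_eq_self (μ := (volume : Measure P2))
      (fun w => g w * (ENNReal.ofReal (dist z w)) ^ (-(1:ℝ))) z
    rw [← h0]
    refine lintegral_congr fun w => ?_
    have h2 : dist z (z + w) = ‖w‖ := by
      rw [dist_eq_norm]
      have : z - (z + w) = -w := by abel
      rw [this, norm_neg]
    simp only [h2]
  rw [h1, polar_lint]
  · refine lintegral_congr fun θ => ?_
    refine setLIntegral_congr_fun measurableSet_Ioi fun t ht => ?_
    have ht0 : (0 : ℝ) < t := ht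
    rw [norm_smul, uv_norm, mul_one, Real.norm_of_nonneg ht0.le, mul_comm (g _), ← mul_assoc,
      ENNReal.rpow_neg_one, ENNReal.mul_inv_cancel, one_mul]
    · exact (ENNReal.ofReal_pos.2 ht0).ne'
    · exact ENNReal.ofReal_ne_top
  · refine Measurable.mul ?_ ?_
    · exact hg.comp (by fun_prop)
    · exact (ENNReal.measurable_ofReal.comp measurable_norm).pow_const _

theorem full_polar (g : P2 → ℝ≥0∞) (hg : Measurable g) (z : P2) :
    2 * ∫⁻ w, g w * (ENNReal.ofReal (dist z w)) ^ (-(1:ℝ)) =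
      ∫⁻ θ in Ioo (-Real.pi) Real.pi, ∫⁻ t : ℝ, g (z + t • uv θ) := by
  have h1 := half_polar g hg z
  have h2 : ∫⁻ w, g w * (ENNReal.ofReal (dist z w)) ^ (-(1:ℝ)) =
      ∫⁻ w, g (2 • z - w) * (ENNReal.ofReal (dist z w)) ^ (-(1:ℝ)) := by
    have h0 := lintegral_sub_left_eq_self (μ := (volume : Measure P2))
      (fun w => g w * (ENNReal.ofReal (dist z w)) ^ (-(1:ℝ))) (2 • z)
    rw [← h0]
    refine lintegral_congr fun w => ?_
    have h2 : dist z (2 • z - w) = dist z w := by
      rw [dist_eq_norm, dist_eq_norm, ← norm_neg]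
      congr 1
      module
    simp only [h2]
  have h3 := half_polar (fun w => g (2 • z - w)) (hg.comp (by fun_prop)) z
  rw [← h2] at h3
  rw [two_mul]
  conv_lhs => rw [h1]
  conv_lhs => arg 2; rw [← h1, h3]
  have hm : Measurable fun θ : ℝ => ∫⁻ t in Ioi (0 : ℝ), g (z + t • uv θ) := by
    have hm2 : Measurable (fun p : ℝ × ℝ => g (z + p.2 • uv p.1)) :=
      hg.comp ((continuous_const.add (continuous_snd.smul (uv_cont.comp continuous_fst))).measurable)
    exact hm2.lintegral_prod_right'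
  rw [← lintegral_add_left hm]
  refine lintegral_congr fun θ => ?_
  have h4 : ∫⁻ t in Ioi (0 : ℝ), g (2 • z - (z + t • uv θ)) =
      ∫⁻ t in Iic (0 : ℝ), g (z + t • uv θ) := by
    have h5 : ∫⁻ t in Ioi (0 : ℝ), g (2 • z - (z + t • uv θ)) =
        ∫⁻ t in Ioi (0 : ℝ), g (z + (-t) • uv θ) := by
      refine lintegral_congr fun t => ?_
      congr 1
      module
    rw [h5, setLIntegral_congr (Iio_ae_eq_Iic (a := (0:ℝ)) (μ := volume)).symm,
      ← lintegral_indicator measurableSet_Ioi, ← lintegral_indicator measurableSet_Iio,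
      ← lintegral_neg_eq_self]
    refine lintegral_congr fun t => ?_
    by_cases ht : t < 0
    · rw [indicator_of_mem (show -t ∈ Ioi (0:ℝ) by simpa using ht),
        indicator_of_mem (show t ∈ Iio (0:ℝ) from ht), neg_neg]
    · rw [indicator_of_notMem (show -t ∉ Ioi (0:ℝ) by simpa using ht),
        indicator_of_notMem (show t ∉ Iio (0:ℝ) from ht)]
  rw [h4, ← compl_Iic, add_comm, lintegral_add_compl _ measurableSet_Iic]

end Pool.Agent.W784.PS
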