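import Pool.Agent.W784.PS.Polar
import Pool.Agent.W784.PS.Chord

set_option autoImplicit false
open MeasureTheory Set Filter Topology
open scoped ENNReal NNReal

namespace Pool.Agent.W784.PS

open Pool.Agent.Helper88.RB

theorem inner_uv (a : P2) (θ : ℝ) : inner ℝ a (uv θ) = a 0 * Real.cos θ + a 1 * Real.sin θ := by
  rw [EuclideanSpace.inner_eq_star_dotProduct]
  simp [dotProduct, Fin.sum_univ_two, uv, mul_comm]

theorem norm_sq_two (a : P2) : ‖a‖ ^ 2 = a 0 ^ 2 + a 1 ^ 2 := by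
  rw [EuclideanSpace.norm_sq_eq]
  simp [Fin.sum_univ_two]

theorem semi_pot (c z : P2) (R : ℝ) :
    ∫⁻ w, ENNReal.ofReal (Real.sqrt (R ^ 2 - ‖w - c‖ ^ 2)) *
        (ENNReal.ofReal (dist z w)) ^ (-(1:ℝ)) =
      (2 : ℝ≥0∞)⁻¹ * ∫⁻ θ in Ioo (-Real.pi) Real.pi,
        ENNReal.ofReal (Real.pi / 2 * (R ^ 2 - ‖z - c‖ ^ 2 + (inner ℝ (z - c) (uv θ)) ^ 2)) := by
  have hg : Measurable (fun w : P2 => ENNReal.ofReal (Real.sqrt (R ^ 2 - ‖w - c‖ ^ 2))) :=
    ENNReal.measurable_ofReal.comp (by fun_prop)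
  have h1 := full_polar _ hg z
  have h2 : ∀ θ : ℝ, ∫⁻ t : ℝ, ENNReal.ofReal (Real.sqrt (R ^ 2 - ‖z + t • uv θ - c‖ ^ 2)) =
      ENNReal.ofReal (Real.pi / 2 * (R ^ 2 - ‖z - c‖ ^ 2 + (inner ℝ (z - c) (uv θ)) ^ 2)) := by
    intro θ
    rw [← chord_sqrt]
    have h3 := lintegral_add_right_eq_self (μ := (volume : Measure ℝ)) (fun t : ℝ =>
      ENNReal.ofReal (Real.sqrt ((R ^ 2 - ‖z - c‖ ^ 2 + (inner ℝ (z - c) (uv θ)) ^ 2) - t ^ 2)))
      (inner ℝ (z - c) (uv θ))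
    rw [← h3]
    refine lintegral_congr fun t => ?_
    congr 2
    have h4 : z + t • uv θ - c = (z - c) + t • uv θ := by abel
    rw [h4, norm_add_sq_real, norm_smul, uv_norm, inner_smul_right, mul_one, Real.norm_eq_abs,
      sq_abs]
    ring
  simp only [h2] at h1
  rw [← h1, ← mul_assoc, ENNReal.inv_mul_cancel (by norm_num) (by norm_num), one_mul]

theorem lint_ofReal (f : ℝ → ℝ) (hf : Continuous f) :
    ∫⁻ θ in Ioo (-Real.pi) Real.pi, ENNReal.ofReal (f θ) =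
      ENNReal.ofReal (∫ θ in (-Real.pi)..Real.pi, max (f θ) 0) := by
  have hpi := Real.pi_pos
  have hc : Continuous (fun θ => max (f θ) 0) := hf.max continuous_const
  rw [intervalIntegral.integral_of_le (by linarith), integral_Ioc_eq_integral_Ioo]
  have hint : IntegrableOn (fun θ => max (f θ) 0) (Ioo (-Real.pi) Real.pi) :=
    (hc.integrableOn_Icc (a := -Real.pi) (b := Real.pi)).mono_set Ioo_subset_Icc_self
  rw [ofReal_integral_eq_lintegral_ofReal hint (Eventually.of_forall fun θ => le_max_right _ _)]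
  refine lintegral_congr fun θ => ?_
  rw [ENNReal.ofReal_max, ENNReal.ofReal_zero, max_eq_left zero_le]

theorem cs_sq_int (a b : ℝ) :
    ∫ θ in (-Real.pi)..Real.pi, (a * Real.cos θ + b * Real.sin θ) ^ 2 =
      Real.pi * (a ^ 2 + b ^ 2) := by
  have h1 : ∀ θ : ℝ, (a * Real.cos θ + b * Real.sin θ) ^ 2 =
      a ^ 2 * Real.cos θ ^ 2 + (2 * a * b) * (Real.sin θ * Real.cos θ) + b ^ 2 * Real.sin θ ^ 2 := by
    intro θ; ring
  simp_rw [h1]
  have c1 : Continuous fun θ : ℝ => a ^ 2 * Real.cos θ ^ 2 := by fun_prop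
  have c2 : Continuous fun θ : ℝ => (2 * a * b) * (Real.sin θ * Real.cos θ) := by fun_prop
  have c3 : Continuous fun θ : ℝ => b ^ 2 * Real.sin θ ^ 2 := by fun_prop
  have c12 : Continuous fun θ : ℝ => a ^ 2 * Real.cos θ ^ 2 +
      (2 * a * b) * (Real.sin θ * Real.cos θ) := by fun_prop
  rw [intervalIntegral.integral_add (c12.intervalIntegrable _ _)
    (c3.intervalIntegrable _ _), intervalIntegral.integral_add (c1.intervalIntegrable _ _)
    (c2.intervalIntegrable _ _), intervalIntegral.integral_const_mul,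
    intervalIntegral.integral_const_mul, intervalIntegral.integral_const_mul,
    integral_cos_sq, integral_sin_sq, integral_sin_mul_cos₁]
  simp
  ring

theorem semi_low (c z : P2) (R : ℝ) :
    ENNReal.ofReal (Real.pi ^ 2 / 4 * (2 * R ^ 2 - ‖z - c‖ ^ 2)) ≤
    ∫⁻ w, ENNReal.ofReal (Real.sqrt (R ^ 2 - ‖w - c‖ ^ 2)) *
        (ENNReal.ofReal (dist z w)) ^ (-(1:ℝ)) := by
  have hpi := Real.pi_pos
  have hcin : Continuous fun θ : ℝ => inner ℝ (z - c) (uv θ) := by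
    simp_rw [inner_uv]
    fun_prop
  rw [semi_pot, lint_ofReal _ (by fun_prop)]
  have h2 : (2 : ℝ≥0∞)⁻¹ = ENNReal.ofReal (1 / 2) := by
    rw [one_div, ENNReal.ofReal_inv_of_pos (by norm_num), ENNReal.ofReal_ofNat]
  rw [h2, ← ENNReal.ofReal_mul (by norm_num)]
  apply ENNReal.ofReal_le_ofReal
  have h3 : ∫ θ in (-Real.pi)..Real.pi,
      (Real.pi / 2 * (R ^ 2 - ‖z - c‖ ^ 2 + (inner ℝ (z - c) (uv θ)) ^ 2)) ≤
      ∫ θ in (-Real.pi)..Real.pi,
      max (Real.pi / 2 * (R ^ 2 - ‖z - c‖ ^ 2 + (inner ℝ (z - c) (uv θ)) ^ 2)) 0 := by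
    refine intervalIntegral.integral_mono_on (by linarith) (Continuous.intervalIntegrable (by fun_prop) _ _)
      (Continuous.intervalIntegrable (by fun_prop) _ _) fun θ _ => le_max_left _ _
  have h4 : ∫ θ in (-Real.pi)..Real.pi,
      (Real.pi / 2 * (R ^ 2 - ‖z - c‖ ^ 2 + (inner ℝ (z - c) (uv θ)) ^ 2)) =
      Real.pi ^ 2 / 2 * (2 * R ^ 2 - ‖z - c‖ ^ 2) := by
    rw [intervalIntegral.integral_const_mul, intervalIntegral.integral_add
      (by simp) (Continuous.intervalIntegrable (by fun_prop) _ _),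
      intervalIntegral.integral_const]
    simp_rw [inner_uv]
    rw [cs_sq_int, norm_sq_two, smul_eq_mul]
    ring
  linarith

theorem exists_angle (c : P2) : ∃ φ : ℝ, c 0 = ‖c‖ * Real.cos φ ∧ c 1 = ‖c‖ * Real.sin φ := by
  obtain ⟨ζ, hζ⟩ : ∃ ζ : ℂ, ζ = ⟨c 0, c 1⟩ := ⟨_, rfl⟩
  have hn : ‖ζ‖ = ‖c‖ := by
    rw [← Real.sqrt_sq (norm_nonneg c), norm_sq_two, hζ, Complex.norm_def, Complex.normSq_mk]
    congr 1
    ring
  refine ⟨Complex.arg ζ, ?_, ?_⟩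
  · rw [← hn, Complex.norm_mul_cos_arg, hζ]
  · rw [← hn, Complex.norm_mul_sin_arg, hζ]

theorem semi_zero (c : P2) (α : ℝ) (h0 : 0 < α) (h1 : α < Real.pi / 2) :
    ∫⁻ w, ENNReal.ofReal (Real.sqrt ((‖c‖ * Real.sin α) ^ 2 - ‖w - c‖ ^ 2)) *
        (ENNReal.ofReal (dist 0 w)) ^ (-(1:ℝ)) =
    ENNReal.ofReal (Real.pi / 4 * ‖c‖ ^ 2 *
      (4 * α * Real.sin α ^ 2 - 2 * α + Real.sin (2 * α))) := by
  have hpi := Real.pi_pos
  have hcin : Continuous fun θ : ℝ => inner ℝ (0 - c) (uv θ) := by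
    simp_rw [inner_uv]
    fun_prop
  rw [semi_pot, lint_ofReal _ (by fun_prop)]
  have h2 : (2 : ℝ≥0∞)⁻¹ = ENNReal.ofReal (1 / 2) := by
    rw [one_div, ENNReal.ofReal_inv_of_pos (by norm_num), ENNReal.ofReal_ofNat]
  rw [h2, ← ENNReal.ofReal_mul (by norm_num)]
  congr 1
  obtain ⟨φ, hφ0, hφ1⟩ := exists_angle c
  have h3 : ∀ θ : ℝ, max (Real.pi / 2 * ((‖c‖ * Real.sin α) ^ 2 - ‖0 - c‖ ^ 2 +
      (inner ℝ (0 - c) (uv θ)) ^ 2)) 0 =
      (Real.pi / 2 * ‖c‖ ^ 2) * max (Real.sin α ^ 2 - 1 + Real.cos (θ - φ) ^ 2) 0 := by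
    intro θ
    rw [mul_max_of_nonneg _ _ (by positivity), mul_zero]
    congr 1
    rw [inner_uv, zero_sub, norm_neg, PiLp.neg_apply, PiLp.neg_apply, hφ0, hφ1, Real.cos_sub]
    ring
  simp_rw [h3]
  rw [intervalIntegral.integral_const_mul, theta_int α φ h0 h1]
  ring

end Pool.Agent.W784.PS
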